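import Mathlib

open Filter Topology Asymptotics

namespace Pool.Agent.MP_d19687_ag

/-- `w` is the velocity at `p` of the germ at `0` of a holomorphic curve `γ : ℂ → E` with
`γ 0 = p` which stays in `S`.  For a complex submanifold `S` these `w` form the tangent space
of `S` at `p`. -/
def IsTangent {E : Type*} [NormedAddCommGroup E] [NormedSpace ℂ E] (S : Set E) (p w : E) : Prop :=
  ∃ γ : ℂ → E, AnalyticAt ℂ γ 0 ∧ γ 0 = p ∧ deriv γ 0 = w ∧ ∀ᶠ t in 𝓝 (0 : ℂ), γ t ∈ S

/-- `Z` is the punctured affine cone of an irreducible nonsingular projective variety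
`Z ⊆ ℙ(V)`: it is invariant under scaling, closed in `V ∖ {0}`, connected, and a complex
submanifold of `V`: near each of its points it is the image of an analytic immersion `φ` of
a neighbourhood of `0` in some `ℂ ^ d`, such that the images of the neighbourhoods of `0` are
neighbourhoods in `Z`.  (By Chow's theorem such a `Z` is algebraic.) -/
structure IsSmoothCone {V : Type*} [NormedAddCommGroup V] [NormedSpace ℂ V] (Z : Set V) :
    Prop where
  ne_zero : ∀ v ∈ Z, v ≠ 0
  smul_mem : ∀ v ∈ Z, ∀ c : ℂ, c ≠ 0 → c • v ∈ Z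
  isClosed : IsClosed (Z ∪ {0})
  isConnected : IsConnected Z
  chart : ∀ v ∈ Z, ∃ (d : ℕ) (φ : (Fin d → ℂ) → V),
    AnalyticAt ℂ φ 0 ∧ φ 0 = v ∧ Function.Injective (fderiv ℂ φ 0) ∧
    (∀ᶠ s in 𝓝 (0 : Fin d → ℂ), φ s ∈ Z) ∧
    ∀ S ∈ 𝓝 (0 : Fin d → ℂ), ∀ᶠ w in 𝓝[Z] v, w ∈ φ '' S

section Cone

variable {T : Type*} [NormedAddCommGroup T] [NormedSpace ℂ T]

/-- `C ⊆ T × T` is the punctured affine cone bundle of a cone structure on the connected open
set `U` of the finite-dimensional complex vector space `T` (whose tangent bundle is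
`U × T`), all of whose fibres `{v | (y, v) ∈ C}` are punctured affine cones of irreducible
nonsingular projective varieties.  Namely `C` lies over `U`, is invariant under scaling in the
fibres, closed in `U × (T ∖ {0})` (so that its projectivisation is proper over `U`), surjects
onto `U`, has connected fibres and near each of its points `(y₀, v₀)` it is the image of an
analytic `(y, s) ↦ (y, φ (y, s))`, `s` in a neighbourhood of `0` in `ℂ ^ d`, immersive in `s`,
such that images of neighbourhoods of `(y₀, 0)` are neighbourhoods in `C` (so that `C` is a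
submanifold and submersive over `U`). -/
structure IsConeStructure (U : Set T) (C : Set (T × T)) : Prop where
  isOpen : IsOpen U
  isConnected : IsConnected U
  base : ∀ p ∈ C, p.1 ∈ U
  ne_zero : ∀ p ∈ C, p.2 ≠ 0
  smul_mem : ∀ p ∈ C, ∀ c : ℂ, c ≠ 0 → (p.1, c • p.2) ∈ C
  closed : ∀ p ∈ closure C, p.1 ∈ U → p.2 ≠ 0 → p ∈ C
  fibre_connected : ∀ y ∈ U, IsConnected {v : T | (y, v) ∈ C}
  chart : ∀ p ∈ C, ∃ (d : ℕ) (φ : T × (Fin d → ℂ) → T),
    AnalyticAt ℂ φ (p.1, 0) ∧ φ (p.1, 0) = p.2 ∧
    Function.Injective (fderiv ℂ (fun s : Fin d → ℂ => φ (p.1, s)) 0) ∧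
    (∀ᶠ q in 𝓝 (p.1, (0 : Fin d → ℂ)), (q.1, φ q) ∈ C) ∧
    ∀ S ∈ 𝓝 (p.1, (0 : Fin d → ℂ)), ∀ᶠ q in 𝓝[C] p, ∃ a ∈ S, q = (a.1, φ a)

/-- `D_y`, the linear span of the fibre of the cone structure at `y`. -/
def fibreSpan (C : Set (T × T)) (y : T) : Submodule ℂ T :=
  Submodule.span ℂ {v : T | (y, v) ∈ C}

/-- The open set `U_o` of the points of `U` near which `dim D_y` is constant. -/
def regularLocus (U : Set T) (C : Set (T × T)) : Set T :=
  {y | y ∈ U ∧ ∀ᶠ y' in 𝓝 y,
    Module.finrank ℂ (fibreSpan C y') = Module.finrank ℂ (fibreSpan C y)}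

/-- The vector fields near `y` obtained by iterated Lie brackets from the holomorphic sections
of the distribution `Dist(C)` near `y`. -/
inductive IterBracket (C : Set (T × T)) (y : T) : (T → T) → Prop
  | base (X : T → T) (hX : AnalyticAt ℂ X y) (hD : ∀ᶠ y' in 𝓝 y, X y' ∈ fibreSpan C y') :
      IterBracket C y X
  | bracket (X Y : T → T) (hX : IterBracket C y X) (hY : IterBracket C y Y) :
      IterBracket C y (VectorField.lieBracket ℂ X Y)

/-- `Dist(C)` is bracket-generating: at every point `y` of `U_o` the iterated brackets of its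
local sections span the tangent space. -/
def IsBracketGenerating (U : Set T) (C : Set (T × T)) : Prop :=
  ∀ y ∈ regularLocus U C, Submodule.span ℂ {v : T | ∃ X, IterBracket C y X ∧ X y = v} = ⊤

/-- The germ at `x` of the vector field `σ` preserves the cone structure: it is holomorphic at
`x` and its natural lift `(σ(y), dσ_y(v))` to the tangent bundle is tangent to `C`. -/
def Preserves (C : Set (T × T)) (x : T) (σ : T → T) : Prop :=
  AnalyticAt ℂ σ x ∧ ∀ᶠ y in 𝓝 x, ∀ v : T, (y, v) ∈ C →
    IsTangent C (y, v) (σ y, fderiv ℂ σ y v)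

/-- The Lie algebra `𝔣²` at `x` (germs at `x` of holomorphic vector fields preserving the cone
structure and vanishing at `x` to order at least `3`) contains a nonzero element. -/
def HasNonzeroF2 (C : Set (T × T)) (x : T) : Prop :=
  ∃ σ : T → T, Preserves C x σ ∧ ¬ (∀ᶠ y in 𝓝 x, σ y = 0) ∧
    σ =O[𝓝 x] fun y => ‖y - x‖ ^ 3

end Cone

/-- The variety `Z ⊆ ℙ(V)` (given by its punctured affine cone) occurs, up to linear
isomorphism, as a fibre of a cone structure as in the problem: there is a connected open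
subset `U` of a complex vector space `T` (of the dimension of `V`) and a cone structure `C`
on `U` with irreducible nonsingular fibres such that `Dist(C)` is bracket-generating,
`𝔣²` is nonzero at some point of `U`, and the fibre of `C` at some point of `U` is the image
of `Z` under a linear isomorphism `V ≃ T`. -/
def Occurs {V : Type} [NormedAddCommGroup V] [NormedSpace ℂ V] (Z : Set V) : Prop :=
  ∃ (T : Type) (_ : NormedAddCommGroup T) (_ : NormedSpace ℂ T) (_ : FiniteDimensional ℂ T)
    (U : Set T) (C : Set (T × T)),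
    IsConeStructure U C ∧ IsBracketGenerating U C ∧ (∃ x ∈ U, HasNonzeroF2 C x) ∧
    ∃ y ∈ U, ∃ L : V ≃ₗ[ℂ] T, {v : T | (y, v) ∈ C} = L '' Z

/-- The variety `Z ⊆ ℙ(V)` occurs everywhere: there is a cone structure `C` as in the problem on
a connected open subset `U` of a complex vector space `T`, with `Dist(C)` bracket-generating and
of constant rank (`U_o = U`), such that `𝔣²` is nonzero at every point of `U` and every fibre of
`C` is the image of `Z` under a linear isomorphism `V ≃ T`. -/
def OccursEverywhere {V : Type} [NormedAddCommGroup V] [NormedSpace ℂ V] (Z : Set V) : Prop :=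
  ∃ (T : Type) (_ : NormedAddCommGroup T) (_ : NormedSpace ℂ T) (_ : FiniteDimensional ℂ T)
    (U : Set T) (C : Set (T × T)),
    IsConeStructure U C ∧ IsBracketGenerating U C ∧ regularLocus U C = U ∧
    (∀ x ∈ U, HasNonzeroF2 C x) ∧
    ∀ y ∈ U, ∃ L : V ≃ₗ[ℂ] T, {v : T | (y, v) ∈ C} = L '' Z

end Pool.Agent.MP_d19687_ag
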