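import Pool.Agent.MP_d19687_ag.Defs

open Filter Topology Asymptotics

set_option linter.unusedSectionVars false

namespace Pool.Agent.MP_d19687_ag

variable {V : Type*} [NormedAddCommGroup V] [NormedSpace ℂ V] [FiniteDimensional ℂ V]
  {T : Type*} [NormedAddCommGroup T] [NormedSpace ℂ T] [FiniteDimensional ℂ T]

/-- The family of linear images `A_y Z`. -/
def coneOf (U : Set T) (A : T → V →L[ℂ] T) (Z : Set V) : Set (T × T) :=
  {p | p.1 ∈ U ∧ ∃ z ∈ Z, p.2 = A p.1 z}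

theorem fibre_coneOf {U : Set T} {A : T → V →L[ℂ] T} {Z : Set V} {y : T} (hy : y ∈ U) :
    {v : T | (y, v) ∈ coneOf U A Z} = A y '' Z := by
  ext v
  constructor
  · rintro ⟨_, z, hz, h⟩
    exact ⟨z, hz, h.symm⟩
  · rintro ⟨z, hz, h⟩
    exact ⟨hy, z, hz, h.symm⟩

theorem isTangent_self {Z : Set V} (hZ : IsSmoothCone Z) {z : V} (hz : z ∈ Z) :
    IsTangent Z z z := by
  refine ⟨fun t => (1 + t) • z, ?_, by simp, ?_, ?_⟩
  · exact ((analyticAt_const.add analyticAt_id)).smul analyticAt_const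
  · have : HasDerivAt (fun t : ℂ => (1 + t) • z) ((1 : ℂ) • z) 0 := by
      have h1 : HasDerivAt (fun t : ℂ => 1 + t) 1 0 := by
        simpa using (hasDerivAt_id (0 : ℂ)).const_add 1
      exact h1.smul_const z
    simpa using this.deriv
  · have h1 : Tendsto (fun t : ℂ => 1 + t) (𝓝 0) (𝓝 (1 + 0)) :=
      (continuous_const.add continuous_id).tendsto 0
    rw [add_zero] at h1
    have h2 : ∀ᶠ t : ℂ in 𝓝 0, 1 + t ≠ 0 := h1.eventually_ne one_ne_zero
    filter_upwards [h2] with t ht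
    exact hZ.smul_mem z hz _ ht

theorem isTangent_smul {E : Type*} [NormedAddCommGroup E] [NormedSpace ℂ E] {S : Set E} {p w : E}
    (h : IsTangent S p w) (c : ℂ) : IsTangent S p (c • w) := by
  obtain ⟨γ, hγ, h0, hd, hS⟩ := h
  have hlin : HasDerivAt (fun t : ℂ => c * t) c 0 := by
    simpa using (hasDerivAt_id (0 : ℂ)).const_mul c
  have hγd : HasDerivAt γ w (c * 0) := by
    rw [mul_zero, ← hd]
    exact hγ.differentiableAt.hasDerivAt
  refine ⟨fun t => γ (c * t), ?_, by simpa using h0, ?_, ?_⟩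
  · have : AnalyticAt ℂ γ (c * 0) := by simpa using hγ
    exact this.comp (f := fun t : ℂ => c * t) (analyticAt_const.mul analyticAt_id)
  · have := HasDerivAt.scomp (0 : ℂ) hγd hlin
    exact this.deriv
  · have h1 : Tendsto (fun t : ℂ => c * t) (𝓝 0) (𝓝 0) := by
      simpa using (continuous_const.mul continuous_id).tendsto (0 : ℂ) (f := fun t : ℂ => c * t)
    exact h1.eventually hS

/-- Velocities of curves in a cone lie in its span. -/
theorem isTangent_mem_span {Z : Set V} {p w : V} (h : IsTangent Z p w) (hp : p ∈ Z) :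
    w ∈ Submodule.span ℂ Z := by
  obtain ⟨γ, hγ, h0, hd, hS⟩ := h
  have hcl : IsClosed ((Submodule.span ℂ Z : Submodule ℂ V) : Set V) :=
    Submodule.closed_of_finiteDimensional _
  have hder : HasDerivAt γ w 0 := by
    rw [← hd]; exact hγ.differentiableAt.hasDerivAt
  have hs := hasDerivAt_iff_tendsto_slope.1 hder
  refine hcl.mem_of_tendsto hs ?_
  filter_upwards [hS.filter_mono nhdsWithin_le_nhds] with t ht
  rw [slope_def_module, h0]
  exact Submodule.smul_mem _ _ (Submodule.sub_mem _ (Submodule.subset_span ht)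
    (Submodule.subset_span hp))

section

variable {U : Set T} {A : T → V →L[ℂ] T} {Z : Set V}

/-- The basic compactness argument: if `A_{y_n} z_n` converges to a nonzero vector, then a
subsequence of `z_n ∈ Z` converges in `Z`. -/
theorem exists_subseq (hZ : IsSmoothCone Z) {y₀ : T} (hA : ContinuousAt A y₀)
    (h1 : ∀ z ∈ Z, A y₀ z ≠ 0) {y : ℕ → T} {z : ℕ → V} (hz : ∀ n, z n ∈ Z)
    (hy : Tendsto y atTop (𝓝 y₀)) {v : T} (hv : v ≠ 0)
    (hAz : Tendsto (fun n => A (y n) (z n)) atTop (𝓝 v)) :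
    ∃ φ : ℕ → ℕ, StrictMono φ ∧ ∃ z₀ ∈ Z, Tendsto (fun n => z (φ n)) atTop (𝓝 z₀) ∧
      A y₀ z₀ = v := by
  have hcompact : IsCompact ((Z ∪ {0}) ∩ Metric.sphere (0 : V) 1) :=
    (isCompact_sphere (0 : V) 1).inter_left hZ.isClosed
  have hzn : ∀ n, z n ≠ 0 := fun n => hZ.ne_zero _ (hz n)
  set u : ℕ → V := fun n => ((‖z n‖ : ℂ)⁻¹) • z n with hu
  have hun : ∀ n, u n ∈ (Z ∪ {0}) ∩ Metric.sphere (0 : V) 1 := by
    intro n
    have hn : (‖z n‖ : ℂ) ≠ 0 := by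
      exact_mod_cast norm_ne_zero_iff.2 (hzn n)
    refine ⟨Or.inl (hZ.smul_mem _ (hz n) _ (inv_ne_zero hn)), ?_⟩
    simp only [mem_sphere_iff_norm, sub_zero, hu, norm_smul, norm_inv, Complex.norm_real,
      norm_norm]
    exact inv_mul_cancel₀ (norm_ne_zero_iff.2 (hzn n))
  obtain ⟨u₀, hu₀, φ, hφ, hlim⟩ := hcompact.tendsto_subseq hun
  have hu₀Z : u₀ ∈ Z := by
    rcases hu₀.1 with h | h
    · exact h
    · exfalso
      have h2 := hu₀.2
      rw [Set.mem_singleton_iff.1 h] at h2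
      simp at h2
  have hAu : Tendsto (fun n => A (y (φ n)) (u (φ n))) atTop (𝓝 (A y₀ u₀)) := by
    have hA' : Tendsto (fun n => A (y (φ n))) atTop (𝓝 (A y₀)) :=
      hA.tendsto.comp (hy.comp hφ.tendsto_atTop)
    have hpair := hA'.prodMk_nhds hlim
    exact (isBoundedBilinearMap_apply.continuous.tendsto (A y₀, u₀)).comp hpair
  have hscale : ∀ n, A (y n) (z n) = (‖z n‖ : ℂ) • A (y n) (u n) := by
    intro n
    have hn : (‖z n‖ : ℂ) ≠ 0 := by
      exact_mod_cast norm_ne_zero_iff.2 (hzn n)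
    simp only [hu, map_smul]
    rw [smul_smul, mul_inv_cancel₀ hn, one_smul]
  have hne : ‖A y₀ u₀‖ ≠ 0 := norm_ne_zero_iff.2 (h1 _ hu₀Z)
  -- the norms converge
  have hnorm : Tendsto (fun n => ‖z (φ n)‖) atTop (𝓝 (‖v‖ / ‖A y₀ u₀‖)) := by
    have h3 : Tendsto (fun n => ‖A (y (φ n)) (z (φ n))‖ / ‖A (y (φ n)) (u (φ n))‖) atTop
        (𝓝 (‖v‖ / ‖A y₀ u₀‖)) :=
      ((hAz.comp hφ.tendsto_atTop).norm).div hAu.norm hne
    have hev : ∀ᶠ n in atTop, ‖A (y (φ n)) (u (φ n))‖ ≠ 0 := hAu.norm.eventually_ne hne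
    refine h3.congr' ?_
    filter_upwards [hev] with n hn
    rw [hscale (φ n), norm_smul]
    simp only [Complex.norm_real, norm_norm]
    rw [mul_div_assoc, div_self hn, mul_one]
  set ρ : ℝ := ‖v‖ / ‖A y₀ u₀‖ with hρ
  have hρpos : ρ ≠ 0 := div_ne_zero (norm_ne_zero_iff.2 hv) hne
  have hzlim : Tendsto (fun n => z (φ n)) atTop (𝓝 ((ρ : ℂ) • u₀)) := by
    have h4 : Tendsto (fun n => ((‖z (φ n)‖ : ℝ) : ℂ) • u (φ n)) atTop (𝓝 ((ρ : ℂ) • u₀)) := by
      refine Tendsto.smul ?_ hlim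
      exact (Complex.continuous_ofReal.tendsto ρ).comp hnorm
    refine h4.congr ?_
    intro n
    have hn : (‖z (φ n)‖ : ℂ) ≠ 0 := by
      exact_mod_cast norm_ne_zero_iff.2 (hzn (φ n))
    simp only [hu]
    rw [smul_smul, mul_inv_cancel₀ hn, one_smul]
  refine ⟨φ, hφ, (ρ : ℂ) • u₀, hZ.smul_mem _ hu₀Z _ (by exact_mod_cast hρpos), hzlim, ?_⟩
  have hA' : Tendsto (fun n => A (y (φ n))) atTop (𝓝 (A y₀)) :=
    hA.tendsto.comp (hy.comp hφ.tendsto_atTop)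
  have h5 : Tendsto (fun n => A (y (φ n)) (z (φ n))) atTop (𝓝 (A y₀ ((ρ : ℂ) • u₀))) :=
    (isBoundedBilinearMap_apply.continuous.tendsto (A y₀, (ρ : ℂ) • u₀)).comp
      (hA'.prodMk_nhds hzlim)
  exact tendsto_nhds_unique h5 (hAz.comp hφ.tendsto_atTop)

theorem closed_coneOf (hZ : IsSmoothCone Z) (hA : ∀ y ∈ U, ContinuousAt A y)
    (h1 : ∀ y ∈ U, ∀ z ∈ Z, A y z ≠ 0) :
    ∀ p ∈ closure (coneOf U A Z), p.1 ∈ U → p.2 ≠ 0 → p ∈ coneOf U A Z := by
  intro p hp hpU hp2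
  obtain ⟨q, hq, hlim⟩ := mem_closure_iff_seq_limit.1 hp
  choose hqU z hz hqz using hq
  have hl1 : Tendsto (fun n => (q n).1) atTop (𝓝 p.1) :=
    (continuous_fst.tendsto p).comp hlim
  have hl2 : Tendsto (fun n => (q n).2) atTop (𝓝 p.2) :=
    (continuous_snd.tendsto p).comp hlim
  have hl3 : Tendsto (fun n => A (q n).1 (z n)) atTop (𝓝 p.2) := by
    refine hl2.congr fun n => hqz n
  obtain ⟨φ, _, z₀, hz₀, _, hAz₀⟩ := exists_subseq hZ (hA _ hpU) (h1 _ hpU) hz hl1 hp2 hl3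
  exact ⟨hpU, z₀, hz₀, hAz₀.symm⟩

theorem eventually_near (hZ : IsSmoothCone Z) {y₀ : T} (hA : ContinuousAt A y₀)
    (h2 : ∀ z ∈ Z, ∀ z' ∈ Z, A y₀ z = A y₀ z' → z = z') (h1 : ∀ z ∈ Z, A y₀ z ≠ 0)
    {z₀ : V} (hz₀ : z₀ ∈ Z) {N : Set V} (hN : N ∈ 𝓝 z₀) :
    ∀ᶠ q in 𝓝 (y₀, A y₀ z₀), ∀ z ∈ Z, q.2 = A q.1 z → z ∈ N := by
  by_contra hcon
  have hcon' : ∃ᶠ q in 𝓝 (y₀, A y₀ z₀), ∃ z ∈ Z, q.2 = A q.1 z ∧ z ∉ N := by
    refine (not_eventually.1 hcon).mono ?_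
    intro q hq
    push Not at hq
    exact hq
  obtain ⟨q, hlim, hq⟩ := exists_seq_forall_of_frequently hcon'
  choose z hz hqz hzN using hq
  have hl1 : Tendsto (fun n => (q n).1) atTop (𝓝 y₀) :=
    (continuous_fst.tendsto (y₀, A y₀ z₀)).comp hlim
  have hl2 : Tendsto (fun n => (q n).2) atTop (𝓝 (A y₀ z₀)) :=
    (continuous_snd.tendsto (y₀, A y₀ z₀)).comp hlim
  have hl3 : Tendsto (fun n => A (q n).1 (z n)) atTop (𝓝 (A y₀ z₀)) := by
    refine hl2.congr fun n => hqz n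
  obtain ⟨φ, _, z₁, hz₁, hlimz, hAz₁⟩ := exists_subseq hZ hA h1 hz hl1 (h1 _ hz₀) hl3
  have hzz : z₁ = z₀ := h2 _ hz₁ _ hz₀ hAz₁
  rw [hzz] at hlimz
  obtain ⟨n, hn⟩ := (hlimz.eventually hN).exists
  exact hzN (φ n) hn

/-- A family of linear maps whose kernels meet neither `Z - Z` nor the tangent spaces of `Z`
gives a cone structure. -/
theorem isConeStructure_coneOf (hU : IsOpen U) (hUc : IsConnected U) (hZ : IsSmoothCone Z)
    (hA : ∀ y ∈ U, AnalyticAt ℂ A y)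
    (h2 : ∀ y ∈ U, ∀ z ∈ Z, ∀ z' ∈ Z, A y z = A y z' → z = z')
    (h3 : ∀ y ∈ U, ∀ z ∈ Z, ∀ w, IsTangent Z z w → A y w = 0 → w = 0) :
    IsConeStructure U (coneOf U A Z) := by
  have h1 : ∀ y ∈ U, ∀ z ∈ Z, A y z ≠ 0 := fun y hy z hz h0 =>
    hZ.ne_zero z hz (h3 y hy z hz z (isTangent_self hZ hz) h0)
  refine ⟨hU, hUc, fun p hp => hp.1, ?_, ?_, ?_, ?_, ?_⟩
  · rintro p ⟨hpU, z, hz, hpz⟩
    rw [hpz]
    exact h1 _ hpU z hz
  · rintro p ⟨hpU, z, hz, hpz⟩ c hc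
    exact ⟨hpU, c • z, hZ.smul_mem z hz c hc, by simp [hpz]⟩
  · exact closed_coneOf hZ (fun y hy => (hA y hy).continuousAt) h1
  · intro y hy
    rw [fibre_coneOf hy]
    exact hZ.isConnected.image _ (A y).continuous.continuousOn
  · rintro ⟨y₀, v₀⟩ ⟨hy₀, z₀, hz₀, hv₀⟩
    simp only at hy₀ hv₀
    subst hv₀
    obtain ⟨d, ψ, hψ, hψ0, hψinj, hψZ, hψnear⟩ := hZ.chart z₀ hz₀
    refine ⟨d, fun q => A q.1 (ψ q.2), ?_, ?_, ?_, ?_, ?_⟩
    · have ha : AnalyticAt ℂ (fun q : T × (Fin d → ℂ) => A q.1) (y₀, 0) :=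
        (hA y₀ hy₀).comp (f := fun q : T × (Fin d → ℂ) => q.1) analyticAt_fst
      have hb : AnalyticAt ℂ (fun q : T × (Fin d → ℂ) => ψ q.2) (y₀, 0) :=
        hψ.comp (f := fun q : T × (Fin d → ℂ) => q.2) analyticAt_snd
      exact (ContinuousLinearMap.analyticAt_bilinear
        (ContinuousLinearMap.id ℂ (V →L[ℂ] T)) _).comp
        (f := fun q : T × (Fin d → ℂ) => (A q.1, ψ q.2)) (ha.prod hb)
    · simp [hψ0]
    · intro s s' hss
      have hder : fderiv ℂ (fun s : Fin d → ℂ => A y₀ (ψ s)) 0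
          = (A y₀).comp (fderiv ℂ ψ 0) := by
        have := ((A y₀).hasFDerivAt (x := ψ 0)).comp (0 : Fin d → ℂ)
          hψ.differentiableAt.hasFDerivAt
        exact this.fderiv
      simp only at hss
      rw [hder] at hss
      simp only [ContinuousLinearMap.comp_apply] at hss
      apply hψinj
      have h0 : A y₀ (fderiv ℂ ψ 0 (s - s')) = 0 := by
        rw [map_sub, map_sub, hss, sub_self]
      have htan : IsTangent Z z₀ (fderiv ℂ ψ 0 (s - s')) := by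
        have hlin : HasDerivAt (fun t : ℂ => t • (s - s')) (s - s') 0 := by
          simpa using (hasDerivAt_id (0 : ℂ)).smul_const (s - s')
        refine ⟨fun t => ψ (t • (s - s')), ?_, by simp [hψ0], ?_, ?_⟩
        · have h5 : AnalyticAt ℂ ψ ((0 : ℂ) • (s - s')) := by simpa using hψ
          exact h5.comp (f := fun t : ℂ => t • (s - s')) (analyticAt_id.smul analyticAt_const)
        · have h6 : HasFDerivAt ψ (fderiv ℂ ψ 0) ((0 : ℂ) • (s - s')) := by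
            rw [zero_smul]; exact hψ.differentiableAt.hasFDerivAt
          exact (h6.comp_hasDerivAt (0 : ℂ) hlin).deriv
        · have h7 : Tendsto (fun t : ℂ => t • (s - s')) (𝓝 0) (𝓝 0) := by
            simpa using hlin.continuousAt.tendsto
          exact h7.eventually hψZ
      have h8 := h3 y₀ hy₀ z₀ hz₀ _ htan h0
      rwa [map_sub, sub_eq_zero] at h8
    · have h5 : ∀ᶠ q : T × (Fin d → ℂ) in 𝓝 (y₀, 0), q.1 ∈ U :=
        (continuous_fst.tendsto (y₀, (0 : Fin d → ℂ))).eventually (hU.mem_nhds hy₀)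
      have h6 : ∀ᶠ q : T × (Fin d → ℂ) in 𝓝 (y₀, 0), ψ q.2 ∈ Z :=
        (continuous_snd.tendsto (y₀, (0 : Fin d → ℂ))).eventually hψZ
      filter_upwards [h5, h6] with q hq1 hq2
      exact ⟨hq1, ψ q.2, hq2, rfl⟩
    · intro S hS
      obtain ⟨S1, hS1, S2, hS2, hS12⟩ := mem_nhds_prod_iff.1 hS
      have hnear := hψnear S2 hS2
      rw [eventually_nhdsWithin_iff] at hnear
      have h5 := eventually_near hZ (hA y₀ hy₀).continuousAt (h2 y₀ hy₀) (h1 y₀ hy₀) hz₀ hnear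
      have h6 : ∀ᶠ q : T × T in 𝓝 (y₀, A y₀ z₀), q.1 ∈ S1 :=
        (continuous_fst.tendsto (y₀, A y₀ z₀)).eventually hS1
      rw [eventually_nhdsWithin_iff]
      filter_upwards [h5, h6] with q hq1 hq2
      rintro ⟨hqU, z, hz, hqz⟩
      obtain ⟨s, hs, hsz⟩ := hq1 z hz hqz hz
      refine ⟨(q.1, s), hS12 ⟨hq2, hs⟩, ?_⟩
      ext1
      · rfl
      · simp only [hsz, hqz]

end

end Pool.Agent.MP_d19687_ag
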