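import Pool.Agent.MP_d19687_ag.Embed

open Filter Topology Asymptotics Polynomial

set_option linter.unusedSectionVars false

namespace Pool.Agent.MP_d19687_ag

/-- The `j`-th derivative of the curve `x ↦ (1, x, x ^ 2, …)`. -/
noncomputable def gam (M j : ℕ) (x : ℂ) : Fin M → ℂ :=
  fun i => ((derivative^[j]) (X ^ (i : ℕ) : ℂ[X])).eval x

theorem gam_zero (M : ℕ) (x : ℂ) (i : Fin M) : gam M 0 x i = x ^ (i : ℕ) := by
  simp [gam]

theorem hasDerivAt_gam (M j : ℕ) (x : ℂ) : HasDerivAt (gam M j) (gam M (j + 1) x) x := by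
  rw [hasDerivAt_pi]
  intro i
  have := ((derivative^[j]) (X ^ (i : ℕ) : ℂ[X])).hasDerivAt x
  simp only [gam, Function.iterate_succ_apply']
  exact this

theorem analyticAt_gam (M j : ℕ) (x : ℂ) : AnalyticAt ℂ (gam M j) x := by
  rw [analyticAt_pi_iff]
  intro i
  exact AnalyticOnNhd.eval_polynomial ((derivative^[j]) (X ^ (i : ℕ) : ℂ[X])) x trivial

theorem span_gam (M : ℕ) (x : ℂ) : Submodule.span ℂ (Set.range fun j => gam M j x) = ⊤ := by
  by_contra hne
  obtain ⟨f, hf, hle⟩ := Submodule.exists_le_ker_of_lt_top _ (lt_top_iff_ne_top.2 hne)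
  set P : ℂ[X] := ∑ i : Fin M, C (f (Pi.single i 1)) * X ^ (i : ℕ) with hP
  have heval : ∀ j, ((derivative^[j]) P).eval x = 0 := by
    intro j
    have h1 : f (gam M j x) = 0 := by
      have : gam M j x ∈ Submodule.span ℂ (Set.range fun j => gam M j x) :=
        Submodule.subset_span ⟨j, rfl⟩
      exact hle this
    rw [← h1]
    have h2 : gam M j x = ∑ i : Fin M, (gam M j x i) • (Pi.single i (1 : ℂ) : Fin M → ℂ) := by
      ext k
      simp [Finset.sum_apply, Pi.single_apply]
    rw [h2, map_sum, hP, iterate_derivative_sum, eval_finsetSum]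
    refine Finset.sum_congr rfl fun i _ => ?_
    rw [iterate_derivative_C_mul, eval_mul, eval_C, map_smul, smul_eq_mul, mul_comm]
    rfl
  have hcoeff : ∀ i : Fin M, P.coeff i = f (Pi.single i 1) := by
    intro i
    rw [hP, finsetSum_coeff]
    simp only [coeff_C_mul, coeff_X_pow]
    rw [Finset.sum_eq_single i]
    · simp
    · intro b _ hb
      have : (i : ℕ) ≠ (b : ℕ) := fun h => hb (Fin.ext h.symm)
      simp [this]
    · simp
  have hP0 : P = 0 := by
    by_contra hP0
    have h1 := heval P.natDegree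
    have h2 : (derivative^[P.natDegree]) P
        = C (((derivative^[P.natDegree]) P).coeff 0) := by
      apply eq_C_of_natDegree_eq_zero
      have := natDegree_iterate_derivative P P.natDegree
      omega
    rw [h2, eval_C, coeff_iterate_derivative, zero_add, nsmul_eq_mul] at h1
    have h3 : ((Nat.descFactorial P.natDegree P.natDegree : ℕ) : ℂ) ≠ 0 := by
      rw [Nat.descFactorial_self]
      exact_mod_cast Nat.factorial_ne_zero _
    rcases mul_eq_zero.1 h1 with h | h
    · exact h3 h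
    · exact hP0 (leadingCoeff_eq_zero.1 h)
  apply hf
  refine LinearMap.pi_ext' fun i => ?_
  ext
  simp [← hcoeff i, hP0]

section

variable {V : Type*} [NormedAddCommGroup V] [NormedSpace ℂ V] [FiniteDimensional ℂ V]
  {T : Type*} [NormedAddCommGroup T] [NormedSpace ℂ T] [FiniteDimensional ℂ T]
variable {U : Set T} {A : T → V →L[ℂ] T} {Z : Set V}

theorem fibreSpan_coneOf {y : T} (hy : y ∈ U) :
    fibreSpan (coneOf U A Z) y = (Submodule.span ℂ Z).map (A y : V →ₗ[ℂ] T) := by
  rw [fibreSpan, fibre_coneOf hy, Submodule.map_span]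
  rfl

/-- A linear map injective on `W` agrees on `W` with a linear isomorphism. -/
theorem exists_equiv_extend (W : Submodule ℂ V) (f : V →ₗ[ℂ] T)
    (hf : ∀ w ∈ W, f w = 0 → w = 0) (hdim : Module.finrank ℂ V = Module.finrank ℂ T) :
    ∃ L : V ≃ₗ[ℂ] T, ∀ w ∈ W, L w = f w := by
  obtain ⟨W', hW'⟩ := W.exists_isCompl
  set g : W →ₗ[ℂ] T := f.comp W.subtype with hg
  have hginj : Function.Injective g := by
    rw [← LinearMap.ker_eq_bot, LinearMap.ker_eq_bot']
    intro w hw
    exact Subtype.ext (hf w w.2 hw)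
  obtain ⟨Q, hQ⟩ := (LinearMap.range g).exists_isCompl
  have h1 : Module.finrank ℂ W + Module.finrank ℂ W' = Module.finrank ℂ V :=
    Submodule.finrank_add_eq_of_isCompl hW'
  have h2 : Module.finrank ℂ (LinearMap.range g) + Module.finrank ℂ Q = Module.finrank ℂ T :=
    Submodule.finrank_add_eq_of_isCompl hQ
  have h3 : Module.finrank ℂ (LinearMap.range g) = Module.finrank ℂ W :=
    LinearMap.finrank_range_of_inj hginj
  have h4 : Module.finrank ℂ W' = Module.finrank ℂ Q := by omega
  let e1 : W ≃ₗ[ℂ] LinearMap.range g := LinearEquiv.ofInjective g hginj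
  let e2 : W' ≃ₗ[ℂ] Q := LinearEquiv.ofFinrankEq _ _ h4
  refine ⟨(Submodule.prodEquivOfIsCompl W W' hW').symm.trans
    ((e1.prodCongr e2).trans (Submodule.prodEquivOfIsCompl _ Q hQ)), ?_⟩
  intro w hw
  have h5 : (Submodule.prodEquivOfIsCompl W W' hW').symm w = ((⟨w, hw⟩ : W), 0) :=
    Submodule.prodEquivOfIsCompl_symm_apply_left _ _ hW' (⟨w, hw⟩ : W)
  simp only [LinearEquiv.trans_apply, h5]
  simp [e1, hg]

end

end Pool.Agent.MP_d19687_ag
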