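import Pool.Agent.MP_d19687_ag.Gamma

open Filter Topology Asymptotics

set_option linter.unusedSectionVars false

namespace Pool.Agent.MP_d19687_ag

/-- The manifold of the model. -/
abbrev TJ (m k : ℕ) := ℂ × (Fin (m + 1) → ℂ) × (Fin k → ℂ) × ℂ

/-- Coordinates on the span of the fibres. -/
abbrev EJ (k : ℕ) := ℂ × ℂ × (Fin k → ℂ) × ℂ

section model

variable {m k : ℕ}

/-- The constant part of the frame. -/
noncomputable def P0 (m k : ℕ) : EJ k →L[ℂ] TJ m k :=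
  (ContinuousLinearMap.fst ℂ ℂ (ℂ × (Fin k → ℂ) × ℂ)).prod
    ((0 : EJ k →L[ℂ] (Fin (m + 1) → ℂ)).prod
      ((((ContinuousLinearMap.fst ℂ (Fin k → ℂ) ℂ).comp
        (ContinuousLinearMap.snd ℂ ℂ ((Fin k → ℂ) × ℂ))).comp
        (ContinuousLinearMap.snd ℂ ℂ (ℂ × (Fin k → ℂ) × ℂ))).prod 0))

/-- The last coordinate. -/
noncomputable def R0 (m k : ℕ) : EJ k →L[ℂ] TJ m k :=
  (0 : EJ k →L[ℂ] ℂ).prod ((0 : EJ k →L[ℂ] (Fin (m + 1) → ℂ)).prod
      ((0 : EJ k →L[ℂ] (Fin k → ℂ)).prod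
      (((ContinuousLinearMap.snd ℂ (Fin k → ℂ) ℂ).comp
        (ContinuousLinearMap.snd ℂ ℂ ((Fin k → ℂ) × ℂ))).comp
        (ContinuousLinearMap.snd ℂ ℂ (ℂ × (Fin k → ℂ) × ℂ)))))

/-- The coordinate `β`. -/
noncomputable def B0 (k : ℕ) : EJ k →L[ℂ] ℂ :=
  (ContinuousLinearMap.fst ℂ ℂ ((Fin k → ℂ) × ℂ)).comp
    (ContinuousLinearMap.snd ℂ ℂ (ℂ × (Fin k → ℂ) × ℂ))

/-- The frame of the model. -/
noncomputable def FJ (y : TJ m k) : EJ k →L[ℂ] TJ m k :=
  P0 m k + ContinuousLinearMap.smulRightL ℂ (EJ k) (TJ m k) (B0 k)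
    ((0, gam (m + 1) 0 y.1, 0, 0) : TJ m k) + (y.2.2.2 ^ 3) • R0 m k

theorem FJ_apply (y : TJ m k) (w : EJ k) :
    FJ y w = (w.1, w.2.1 • gam (m + 1) 0 y.1, w.2.2.1, y.2.2.2 ^ 3 * w.2.2.2) := by
  simp [FJ, P0, R0, B0]

theorem analyticAt_gamma_field (j : ℕ) (y : TJ m k) :
    AnalyticAt ℂ (fun y : TJ m k => ((0, gam (m + 1) j y.1, 0, 0) : TJ m k)) y := by
  have h0 : AnalyticAt ℂ (fun _ : TJ m k => (0 : ℂ)) y := analyticAt_const
  have h1 : AnalyticAt ℂ (fun y : TJ m k => gam (m + 1) j y.1) y :=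
    (analyticAt_gam (m + 1) j y.1).comp (f := fun y : TJ m k => y.1) analyticAt_fst
  have h2 : AnalyticAt ℂ (fun _ : TJ m k => ((0, 0) : (Fin k → ℂ) × ℂ)) y := analyticAt_const
  exact h0.prod (h1.prod h2)

theorem analyticAt_FJ (y : TJ m k) : AnalyticAt ℂ (FJ (m := m) (k := k)) y := by
  have h : AnalyticAt ℂ (fun y : TJ m k => y.2.2.2) y :=
    ((ContinuousLinearMap.snd ℂ (Fin k → ℂ) ℂ).comp
      ((ContinuousLinearMap.snd ℂ (Fin (m + 1) → ℂ) ((Fin k → ℂ) × ℂ)).comp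
      (ContinuousLinearMap.snd ℂ ℂ ((Fin (m + 1) → ℂ) × (Fin k → ℂ) × ℂ)))).analyticAt y
  have h1 : AnalyticAt ℂ (fun _ : TJ m k => P0 m k) y := analyticAt_const
  have h2 : AnalyticAt ℂ (fun _ : TJ m k => R0 m k) y := analyticAt_const
  have h3 : AnalyticAt ℂ (fun y : TJ m k => ContinuousLinearMap.smulRightL ℂ (EJ k) (TJ m k)
      (B0 k) ((0, gam (m + 1) 0 y.1, 0, 0) : TJ m k)) y :=
    ((ContinuousLinearMap.smulRightL ℂ (EJ k) (TJ m k) (B0 k)).analyticAt _).comp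
      (analyticAt_gamma_field 0 y)
  exact (h1.add h3).add ((h.pow 3).smul h2)

end model

variable {V : Type*} [NormedAddCommGroup V] [NormedSpace ℂ V] [FiniteDimensional ℂ V]

section main

variable {m k : ℕ} {Z : Set V} (ι : V →L[ℂ] EJ k) {p : V}

/-- The cone structure of the model. -/
noncomputable def AJ (m : ℕ) (ι : V →L[ℂ] EJ k) (y : TJ m k) : V →L[ℂ] TJ m k := (FJ y).comp ι

theorem AJ_apply (y : TJ m k) (w : V) : AJ m ι y w =
    ((ι w).1, (ι w).2.1 • gam (m + 1) 0 y.1, (ι w).2.2.1, y.2.2.2 ^ 3 * (ι w).2.2.2) := by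
  simp [AJ, FJ_apply]

theorem gam_ne_zero (m : ℕ) (x : ℂ) : gam (m + 1) 0 x ≠ 0 := by
  intro h
  have := congrFun h 0
  simp [gam_zero] at this

/-- The kernel of the frame at a point with `z ≠ 0`. -/
theorem AJ_eq_zero {y : TJ m k} (hy : y.2.2.2 ≠ 0) {w : V} (h : AJ m ι y w = 0) : ι w = 0 := by
  rw [AJ_apply] at h
  simp only [Prod.mk_eq_zero] at h
  obtain ⟨h1, h2, h3, h4⟩ := h
  have h2' : (ι w).2.1 = 0 := (smul_eq_zero.1 h2).resolve_right (gam_ne_zero m _)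
  have h4' : (ι w).2.2.2 = 0 := (mul_eq_zero.1 h4).resolve_left (pow_ne_zero 3 hy)
  exact Prod.ext h1 (Prod.ext h2' (Prod.ext h3 h4'))

theorem AJ_eq_zero' {y : TJ m k} {w : V} (h : AJ m ι y w = 0) :
    ∃ c : ℂ, ι w = (0, 0, 0, c) := by
  rw [AJ_apply] at h
  simp only [Prod.mk_eq_zero] at h
  obtain ⟨h1, h2, h3, h4⟩ := h
  have h2' : (ι w).2.1 = 0 := (smul_eq_zero.1 h2).resolve_right (gam_ne_zero m _)
  exact ⟨(ι w).2.2.2, Prod.ext h1 (Prod.ext h2' (Prod.ext h3 rfl))⟩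

theorem analyticAt_AJ (y : TJ m k) : AnalyticAt ℂ (AJ m ι) y := by
  have h : AnalyticAt ℂ (fun y : TJ m k => (FJ y).comp ι) y :=
    (((ContinuousLinearMap.compL ℂ V (EJ k) (TJ m k)).flip ι).analyticAt _).comp
      (analyticAt_FJ y)
  exact h

/-- The fields `(0, γ^{(j)}(x), 0, 0)`. -/
noncomputable def Gf (m k j : ℕ) (y : TJ m k) : TJ m k := (0, gam (m + 1) j y.1, 0, 0)

theorem lieBracket_Gf (j : ℕ) :
    VectorField.lieBracket ℂ (fun _ : TJ m k => ((1, 0, 0, 0) : TJ m k)) (Gf m k j)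
      = Gf m k (j + 1) := by
  funext y
  have h1 : HasFDerivAt (fun y : TJ m k => gam (m + 1) j y.1)
      ((ContinuousLinearMap.toSpanSingleton ℂ (gam (m + 1) (j + 1) y.1)).comp
        (ContinuousLinearMap.fst ℂ ℂ ((Fin (m + 1) → ℂ) × (Fin k → ℂ) × ℂ))) y :=
    HasFDerivAt.comp y (hasDerivAt_gam (m + 1) j y.1).hasFDerivAt hasFDerivAt_fst
  have h2 : HasFDerivAt (Gf m k j)
      ((0 : TJ m k →L[ℂ] ℂ).prod (((ContinuousLinearMap.toSpanSingleton ℂ
        (gam (m + 1) (j + 1) y.1)).comp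
        (ContinuousLinearMap.fst ℂ ℂ ((Fin (m + 1) → ℂ) × (Fin k → ℂ) × ℂ))).prod
        (0 : TJ m k →L[ℂ] (Fin k → ℂ) × ℂ))) y :=
    (hasFDerivAt_const (0 : ℂ) y).prodMk (h1.prodMk
      (hasFDerivAt_const ((0, 0) : (Fin k → ℂ) × ℂ) y))
  rw [VectorField.lieBracket_eq]
  simp only [h2.fderiv, fderiv_fun_const]
  simp [Gf]
  rfl

variable {ι}

/-- The standing hypothesis: `ι` restricts to a bijection from the span of `Z`. -/
structure GoodCoord (Z : Set V) (ι : V →L[ℂ] EJ k) : Prop where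
  inj : ∀ w ∈ Submodule.span ℂ Z, ι w = 0 → w = 0
  surj : ∀ e : EJ k, ∃ w ∈ Submodule.span ℂ Z, ι w = e

theorem FJ_mem (hι : GoodCoord Z ι) (y : TJ m k) (e : EJ k) :
    FJ y e ∈ fibreSpan (coneOf Set.univ (AJ m ι) Z) y := by
  rw [fibreSpan_coneOf (Set.mem_univ y)]
  obtain ⟨w, hw, he⟩ := hι.surj e
  exact ⟨w, hw, by simp [AJ, he]⟩

theorem iterBracket_Gf (hι : GoodCoord Z ι) (y : TJ m k) (j : ℕ) :
    IterBracket (coneOf Set.univ (AJ m ι) Z) y (Gf m k j) := by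
  induction j with
  | zero =>
    refine IterBracket.base _ (analyticAt_gamma_field 0 y) (Eventually.of_forall fun y' => ?_)
    have := FJ_mem hι y' (0, 1, 0, 0)
    rw [FJ_apply] at this
    simpa [Gf] using this
  | succ j ih =>
    rw [← lieBracket_Gf]
    refine IterBracket.bracket _ _ ?_ ih
    refine IterBracket.base _ analyticAt_const (Eventually.of_forall fun y' => ?_)
    have := FJ_mem hι y' (1, 0, 0, 0)
    rw [FJ_apply] at this
    simpa using this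

theorem finrank_fibreSpan (hι : GoodCoord Z ι) (y : TJ m k) (hy : y.2.2.2 ≠ 0) :
    Module.finrank ℂ (fibreSpan (coneOf Set.univ (AJ m ι) Z) y)
      = Module.finrank ℂ (Submodule.span ℂ Z) := by
  rw [fibreSpan_coneOf (Set.mem_univ y)]
  have hinj : Function.Injective ((AJ m ι y : V →ₗ[ℂ] TJ m k).comp
      (Submodule.span ℂ Z).subtype) := by
    rw [← LinearMap.ker_eq_bot, LinearMap.ker_eq_bot']
    intro w hw
    exact Subtype.ext (hι.inj w w.2 (AJ_eq_zero ι hy hw))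
  rw [← LinearMap.finrank_range_of_inj hinj, LinearMap.range_comp, Submodule.range_subtype]

theorem finrank_fibreSpan_lt (hι : GoodCoord Z ι) (y : TJ m k) (hy : y.2.2.2 = 0) :
    Module.finrank ℂ (fibreSpan (coneOf Set.univ (AJ m ι) Z) y)
      < Module.finrank ℂ (Submodule.span ℂ Z) := by
  rw [fibreSpan_coneOf (Set.mem_univ y)]
  set f : (Submodule.span ℂ Z) →ₗ[ℂ] TJ m k := ((AJ m ι y : V →ₗ[ℂ] TJ m k).comp
      (Submodule.span ℂ Z).subtype) with hf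
  have h1 := LinearMap.finrank_range_add_finrank_ker f
  have h2 : LinearMap.range f = (Submodule.span ℂ Z).map (AJ m ι y : V →ₗ[ℂ] TJ m k) := by
    rw [hf, LinearMap.range_comp, Submodule.range_subtype]
  rw [← h2]
  obtain ⟨w, hw, he⟩ := hι.surj (0, 0, 0, 1)
  have hw0 : w ≠ 0 := by
    rintro rfl
    have := congrArg (fun e : EJ k => e.2.2.2) he
    simp at this
  have hker : (⟨w, hw⟩ : Submodule.span ℂ Z) ∈ LinearMap.ker f := by
    rw [LinearMap.mem_ker]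
    show AJ m ι y w = 0
    rw [AJ_apply, he, hy]
    simp
  have h3 : 0 < Module.finrank ℂ (LinearMap.ker f) := by
    rw [Module.finrank_pos_iff_exists_ne_zero]
    refine ⟨⟨⟨w, hw⟩, hker⟩, ?_⟩
    intro h
    apply hw0
    have := congrArg (fun u : LinearMap.ker f => ((u : Submodule.span ℂ Z) : V)) h
    simpa using this
  omega

theorem regularLocus_subset (hι : GoodCoord Z ι) {y : TJ m k}
    (hy : y ∈ regularLocus Set.univ (coneOf Set.univ (AJ m ι) Z)) : y.2.2.2 ≠ 0 := by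
  intro h0
  obtain ⟨_, hev⟩ := hy
  have hlim : Tendsto (fun t : ℂ => y + t • ((0, 0, 0, 1) : TJ m k)) (𝓝[≠] 0) (𝓝 y) := by
    have : Continuous fun t : ℂ => y + t • ((0, 0, 0, 1) : TJ m k) := by fun_prop
    have h := this.tendsto 0
    rw [zero_smul, add_zero] at h
    exact h.mono_left nhdsWithin_le_nhds
  obtain ⟨t, ht, hne⟩ := ((hlim.eventually hev).and self_mem_nhdsWithin).exists
  have h1 := finrank_fibreSpan_lt hι y h0
  have h2 := finrank_fibreSpan hι (y + t • ((0, 0, 0, 1) : TJ m k)) (by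
    simp only [Prod.snd_add, Prod.smul_snd, h0]
    simpa using hne)
  rw [ht] at h2
  omega

theorem isBracketGenerating_coneJ (hι : GoodCoord Z ι) :
    IsBracketGenerating Set.univ (coneOf Set.univ (AJ m ι) Z) := by
  intro y hy
  have hz := regularLocus_subset hι hy
  set S := Submodule.span ℂ
    {v : TJ m k | ∃ X, IterBracket (coneOf Set.univ (AJ m ι) Z) y X ∧ X y = v} with hS
  have m1 : ((1, 0, 0, 0) : TJ m k) ∈ S := by
    refine Submodule.subset_span ⟨fun _ => (1, 0, 0, 0), ?_, rfl⟩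
    refine IterBracket.base _ analyticAt_const (Eventually.of_forall fun y' => ?_)
    have := FJ_mem hι y' (1, 0, 0, 0)
    rw [FJ_apply] at this
    simpa using this
  have m3 : ∀ κ : Fin k → ℂ, ((0, 0, κ, 0) : TJ m k) ∈ S := by
    intro κ
    refine Submodule.subset_span ⟨fun _ => (0, 0, κ, 0), ?_, rfl⟩
    refine IterBracket.base _ analyticAt_const (Eventually.of_forall fun y' => ?_)
    have := FJ_mem hι y' (0, 0, κ, 0)
    rw [FJ_apply] at this
    simpa using this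
  have m4 : ((0, 0, 0, 1) : TJ m k) ∈ S := by
    refine Submodule.subset_span ⟨fun _ => (0, 0, 0, 1), ?_, rfl⟩
    refine IterBracket.base _ analyticAt_const ?_
    have hcont : ContinuousAt (fun y : TJ m k => y.2.2.2) y := by fun_prop
    filter_upwards [hcont.eventually_ne hz] with y' hy'
    have := FJ_mem hι y' (0, 0, 0, (y'.2.2.2 ^ 3)⁻¹)
    rw [FJ_apply] at this
    simpa [mul_inv_cancel₀ (pow_ne_zero 3 hy')] using this
  have m2 : ∀ u : Fin (m + 1) → ℂ, ((0, u, 0, 0) : TJ m k) ∈ S := by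
    have hle : (⊤ : Submodule ℂ (Fin (m + 1) → ℂ)) ≤ S.comap
        ((LinearMap.inr ℂ ℂ ((Fin (m + 1) → ℂ) × (Fin k → ℂ) × ℂ)).comp
          (LinearMap.inl ℂ (Fin (m + 1) → ℂ) ((Fin k → ℂ) × ℂ))) := by
      rw [← span_gam (m + 1) y.1, Submodule.span_le]
      rintro _ ⟨j, rfl⟩
      exact Submodule.subset_span ⟨Gf m k j, iterBracket_Gf hι y j, rfl⟩
    intro u
    exact hle (Submodule.mem_top (x := u))
  rw [eq_top_iff]
  rintro ⟨a, u, κ, c⟩ -
  have hdec : ((a, u, κ, c) : TJ m k)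
      = a • (1, 0, 0, 0) + ((0, u, 0, 0) + ((0, 0, κ, 0) + c • (0, 0, 0, 1))) := by
    ext <;> simp
  rw [hdec]
  exact S.add_mem (S.smul_mem _ m1) (S.add_mem (m2 u) (S.add_mem (m3 κ) (S.smul_mem _ m4)))

/-- The symmetry `z ^ 3 ∂_z`. -/
noncomputable def sJ (m k : ℕ) (y : TJ m k) : TJ m k := (0, 0, 0, y.2.2.2 ^ 3)

/-- The last coordinate as a continuous linear map. -/
noncomputable def zL (m k : ℕ) : TJ m k →L[ℂ] ℂ :=
  (ContinuousLinearMap.snd ℂ (Fin k → ℂ) ℂ).comp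
      ((ContinuousLinearMap.snd ℂ (Fin (m + 1) → ℂ) ((Fin k → ℂ) × ℂ)).comp
      (ContinuousLinearMap.snd ℂ ℂ ((Fin (m + 1) → ℂ) × (Fin k → ℂ) × ℂ)))

/-- The inclusion of the last coordinate. -/
noncomputable def zI (m k : ℕ) : ℂ →L[ℂ] TJ m k :=
  (0 : ℂ →L[ℂ] ℂ).prod ((0 : ℂ →L[ℂ] (Fin (m + 1) → ℂ)).prod
      ((0 : ℂ →L[ℂ] (Fin k → ℂ)).prod (ContinuousLinearMap.id ℂ ℂ)))

theorem hasFDerivAt_sJ (y : TJ m k) :
    HasFDerivAt (sJ m k) ((zI m k).comp ((3 * y.2.2.2 ^ 2) • zL m k)) y := by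
  have h1 : HasFDerivAt (fun y : TJ m k => zL m k y) (zL m k) y := (zL m k).hasFDerivAt
  have h2 : HasFDerivAt (fun y : TJ m k => (zL m k y) ^ 3) ((3 * y.2.2.2 ^ 2) • zL m k) y :=
    (h1.pow 3).congr_fderiv (by
      have : zL m k y = y.2.2.2 := rfl
      rw [this]; norm_num)
  have h3 : HasFDerivAt (fun y : TJ m k => zI m k ((zL m k y) ^ 3))
      ((zI m k).comp ((3 * y.2.2.2 ^ 2) • zL m k)) y := (zI m k).hasFDerivAt.comp y h2
  have h4 : sJ m k = fun y : TJ m k => zI m k ((zL m k y) ^ 3) := by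
    funext y
    simp [sJ, zI, zL]
  rw [h4]
  exact h3

theorem analyticAt_sJ (y : TJ m k) : AnalyticAt ℂ (sJ m k) y := by
  have h1 : AnalyticAt ℂ (fun y : TJ m k => (zL m k y) ^ 3) y := ((zL m k).analyticAt y).pow 3
  have h2 := ((zI m k).analyticAt _).comp h1
  convert h2 using 1
  funext y
  simp [sJ, zI, zL]

theorem norm_z_le (y : TJ m k) : ‖y.2.2.2‖ ≤ ‖y‖ :=
  (norm_snd_le y.2.2).trans ((norm_snd_le y.2).trans (norm_snd_le y))

theorem hasNonzeroF2_coneJ :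
    HasNonzeroF2 (coneOf Set.univ (AJ m ι) Z) (0 : TJ m k) := by
  refine ⟨sJ m k, ⟨analyticAt_sJ 0, Eventually.of_forall fun y v hv => ?_⟩, ?_, ?_⟩
  · obtain ⟨_, z, hz, hvz⟩ := hv
    simp only at hvz
    have hy : HasDerivAt (fun t : ℂ => y + t • sJ m k y) (sJ m k y) 0 := by
      simpa using ((hasDerivAt_id (0 : ℂ)).smul_const (sJ m k y)).const_add y
    have hz1 : HasDerivAt (fun t : ℂ => (y.2.2.2 + t * y.2.2.2 ^ 3) ^ 3 * (ι z).2.2.2)
        (3 * y.2.2.2 ^ 2 * (y.2.2.2 ^ 3 * (ι z).2.2.2)) 0 := by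
      have h1 : HasDerivAt (fun t : ℂ => y.2.2.2 + t * y.2.2.2 ^ 3) (y.2.2.2 ^ 3) 0 := by
        simpa using ((hasDerivAt_id (0 : ℂ)).mul_const (y.2.2.2 ^ 3)).const_add y.2.2.2
      have h2 := (h1.pow 3).mul_const (ι z).2.2.2
      refine h2.congr_deriv ?_
      norm_num
      ring
    have hz2 : HasDerivAt (fun t : ℂ => (((ι z).1, (ι z).2.1 • gam (m + 1) 0 y.1, (ι z).2.2.1,
        (y.2.2.2 + t * y.2.2.2 ^ 3) ^ 3 * (ι z).2.2.2) : TJ m k))
        (0, 0, 0, 3 * y.2.2.2 ^ 2 * (y.2.2.2 ^ 3 * (ι z).2.2.2)) 0 :=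
      (hasDerivAt_const _ _).prodMk ((hasDerivAt_const _ _).prodMk
        ((hasDerivAt_const _ _).prodMk hz1))
    have hA : ∀ t : ℂ, AJ m ι (y + t • sJ m k y) z = ((ι z).1,
        (ι z).2.1 • gam (m + 1) 0 y.1, (ι z).2.2.1,
        (y.2.2.2 + t * y.2.2.2 ^ 3) ^ 3 * (ι z).2.2.2) := by
      intro t
      rw [AJ_apply]
      simp [sJ]
    refine ⟨fun t => (y + t • sJ m k y, AJ m ι (y + t • sJ m k y) z), ?_, ?_, ?_, ?_⟩
    · have h1 : AnalyticAt ℂ (fun t : ℂ => y + t • sJ m k y) 0 :=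
        analyticAt_const.add (analyticAt_id.smul analyticAt_const)
      have h2 : AnalyticAt ℂ (AJ m ι) (y + (0 : ℂ) • sJ m k y) := analyticAt_AJ ι _
      have h3 : AnalyticAt ℂ (fun t : ℂ => AJ m ι (y + t • sJ m k y)) 0 :=
        h2.comp (f := fun t : ℂ => y + t • sJ m k y) h1
      have h4 : AnalyticAt ℂ (fun t : ℂ => AJ m ι (y + t • sJ m k y) z) 0 :=
        ((ContinuousLinearMap.apply ℂ (TJ m k) z).analyticAt _).comp h3
      exact h1.prod h4
    · simp [hvz]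
    · simp only [hA]
      rw [(hy.prodMk hz2).deriv, (hasFDerivAt_sJ y).fderiv, hvz, AJ_apply]
      simp [zI, zL]
    · exact Eventually.of_forall fun t => ⟨Set.mem_univ _, z, hz, rfl⟩
  · intro h
    have hlim : Tendsto (fun t : ℂ => t • ((0, 0, 0, 1) : TJ m k)) (𝓝[≠] 0) (𝓝 0) := by
      have : Continuous fun t : ℂ => t • ((0, 0, 0, 1) : TJ m k) := by fun_prop
      have h := this.tendsto 0
      rw [zero_smul] at h
      exact h.mono_left nhdsWithin_le_nhds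
    obtain ⟨t, ht, hne⟩ := ((hlim.eventually h).and self_mem_nhdsWithin).exists
    have := congrArg (fun y : TJ m k => y.2.2.2) ht
    simp only [sJ, Prod.smul_snd, smul_eq_mul, mul_one, Prod.snd_zero] at this
    exact hne (pow_eq_zero_iff (three_ne_zero) |>.1 this)
  · refine IsBigO.of_bound 1 (Eventually.of_forall fun y => ?_)
    rw [sub_zero, one_mul, norm_pow, norm_norm]
    have : ‖sJ m k y‖ = ‖y.2.2.2‖ ^ 3 := by
      simp [sJ, Prod.norm_def]
    rw [this]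
    exact pow_le_pow_left₀ (norm_nonneg _) (norm_z_le y) 3

end main

end Pool.Agent.MP_d19687_ag
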