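import Pool.Agent.MP_d19687_ag.Jump

open Filter Topology Asymptotics

set_option linter.unusedSectionVars false

namespace Pool.Agent.MP_d19687_ag

variable {V : Type*} [NormedAddCommGroup V] [NormedSpace ℂ V] [FiniteDimensional ℂ V]

theorem finrank_EJ (k : ℕ) : Module.finrank ℂ (EJ k) = k + 3 := by
  simp [EJ]; ring

theorem finrank_TJ (m k : ℕ) : Module.finrank ℂ (TJ m k) = m + k + 3 := by
  simp [TJ]; ring

theorem exists_coords {Z : Set V} {k : ℕ} (hk : Module.finrank ℂ (Submodule.span ℂ Z) = k + 3)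
    {p : V} (hp : p ∈ Submodule.span ℂ Z) (hp0 : p ≠ 0) :
    ∃ ι : V →L[ℂ] EJ k, GoodCoord Z ι ∧ ι p = (0, 0, 0, 1) := by
  let e0 : Submodule.span ℂ Z ≃L[ℂ] EJ k :=
    ContinuousLinearEquiv.ofFinrankEq (hk.trans (finrank_EJ k).symm)
  have h0 : e0 ⟨p, hp⟩ ≠ 0 := by
    rw [Ne, e0.map_eq_zero_iff]
    intro h
    exact hp0 (congrArg Subtype.val h)
  have h1 : ((0, 0, 0, 1) : EJ k) ≠ 0 := by
    intro h
    have := congrArg (fun e : EJ k => e.2.2.2) h
    simp at this
  obtain ⟨B, hB⟩ := SeparatingDual.exists_continuousLinearEquiv_apply_eq (R := ℂ) h0 h1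
  obtain ⟨g, hg⟩ := LinearMap.exists_extend
    ((e0.trans B).toLinearEquiv : Submodule.span ℂ Z →ₗ[ℂ] EJ k)
  have hg' : ∀ w : Submodule.span ℂ Z, g w = B (e0 w) := fun w => by
    have := congrArg (fun f => f w) hg
    simpa using this
  refine ⟨LinearMap.toContinuousLinearMap g, ⟨?_, ?_⟩, ?_⟩
  · intro w hw h
    have h2 : B (e0 ⟨w, hw⟩) = 0 := by rw [← hg']; exact h
    rw [B.map_eq_zero_iff, e0.map_eq_zero_iff] at h2
    exact congrArg Subtype.val h2
  · intro e
    refine ⟨(e0.symm (B.symm e) : Submodule.span ℂ Z), Subtype.mem _, ?_⟩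
    show g _ = e
    rw [hg']
    simp
  · show g p = _
    have := hg' ⟨p, hp⟩
    rw [hB] at this
    exact this

/-- Two linear maps with the same kernel on `W` differ by an isomorphism of the targets. -/
theorem exists_equiv_of_ker {V₁ T : Type*} [NormedAddCommGroup V₁] [NormedSpace ℂ V₁]
    [FiniteDimensional ℂ V₁] [NormedAddCommGroup T] [NormedSpace ℂ T] [FiniteDimensional ℂ T]
    (W : Submodule ℂ V) (f : V →ₗ[ℂ] V₁) (g : V →ₗ[ℂ] T)
    (hfg : ∀ w ∈ W, f w = 0 ↔ g w = 0) (hdim : Module.finrank ℂ V₁ = Module.finrank ℂ T) :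
    ∃ L : V₁ ≃ₗ[ℂ] T, ∀ w ∈ W, L (f w) = g w := by
  set f' : W →ₗ[ℂ] V₁ := f.comp W.subtype with hf'
  set g' : W →ₗ[ℂ] T := g.comp W.subtype with hg'
  have hle : LinearMap.ker f' ≤ LinearMap.ker g' := by
    intro w hw
    exact (hfg w w.2).1 hw
  let h0 : LinearMap.range f' →ₗ[ℂ] T :=
    ((LinearMap.ker f').liftQ g' hle).comp (f'.quotKerEquivRange.symm : _ →ₗ[ℂ] _)
  obtain ⟨h, hh⟩ := LinearMap.exists_extend h0
  have hval : ∀ w : W, h (f' w) = g' w := by
    intro w
    have h1 : h (f' w) = h0 ⟨f' w, LinearMap.mem_range_self f' w⟩ := by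
      rw [← hh]; rfl
    rw [h1]
    have h2 : f'.quotKerEquivRange.symm ⟨f' w, LinearMap.mem_range_self f' w⟩
        = (LinearMap.ker f').mkQ w := by
      rw [LinearEquiv.symm_apply_eq]
      rfl
    show ((LinearMap.ker f').liftQ g' hle) (f'.quotKerEquivRange.symm _) = _
    rw [h2]
    simp
  obtain ⟨L, hL⟩ := exists_equiv_extend (V := V₁) (LinearMap.range f') h (by
    rintro _ ⟨w, rfl⟩ h0
    rw [hval] at h0
    exact (hfg w w.2).2 h0) hdim
  refine ⟨L, fun w hw => ?_⟩
  have := hL (f' ⟨w, hw⟩) (LinearMap.mem_range_self f' _)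
  rw [hval] at this
  exact this

/-- A point of the span off the secants forces the span to have dimension at least `3`. -/
theorem three_le_finrank {Z : Set V} (hZ : IsSmoothCone Z) {p : V}
    (hp : p ∈ Submodule.span ℂ Z) (hsec : ∀ z ∈ Z, ∀ z' ∈ Z, z - z' ≠ p) :
    3 ≤ Module.finrank ℂ (Submodule.span ℂ Z) := by
  obtain ⟨z, hz⟩ := hZ.isConnected.nonempty
  have hp0 : p ≠ 0 := fun h => hsec z hz z hz (by rw [sub_self, h])
  -- no point of `Z` is proportional to `p`
  have hnot : ∀ z ∈ Z, ∀ c : ℂ, p ≠ c • z := by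
    intro z hz c h
    have hc : c ≠ 0 := by rintro rfl; exact hp0 (by simpa using h)
    refine hsec ((2 * c) • z) (hZ.smul_mem z hz _ (mul_ne_zero two_ne_zero hc))
      (c • z) (hZ.smul_mem z hz _ hc) ?_
    rw [h, ← sub_smul]
    congr 1
    ring
  by_contra hlt
  push Not at hlt
  set W := Submodule.span ℂ Z
  have hzW : z ∈ W := Submodule.subset_span hz
  have hli : LinearIndependent ℂ ![z, p] := by
    rw [LinearIndependent.pair_iff]
    intro s t hst
    by_cases ht : t = 0
    · subst ht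
      rw [zero_smul, add_zero] at hst
      exact ⟨(smul_eq_zero.1 hst).resolve_right (hZ.ne_zero z hz), rfl⟩
    · exfalso
      apply hnot z hz (-(t⁻¹ * s))
      have : t • p = -(s • z) := by rw [eq_neg_iff_add_eq_zero, add_comm]; exact hst
      calc p = t⁻¹ • (t • p) := by rw [smul_smul, inv_mul_cancel₀ ht, one_smul]
        _ = -(t⁻¹ * s) • z := by rw [this, smul_neg, smul_smul, neg_smul]
  have hle : Submodule.span ℂ (Set.range ![z, p]) ≤ W := by
    rw [Submodule.span_le]
    rintro _ ⟨i, rfl⟩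
    fin_cases i
    · exact hzW
    · exact hp
  have heq : Submodule.span ℂ (Set.range ![z, p]) = W := by
    apply Submodule.eq_of_le_of_finrank_le hle
    have := finrank_span_eq_card hli
    rw [this]
    simp only [Fintype.card_fin]
    omega
  -- all of `Z` lies in the line of `z`
  have hall : ∀ z' ∈ Z, ∃ a : ℂ, z' = a • z := by
    intro z' hz'
    have h1 : z' ∈ Submodule.span ℂ (Set.range ![z, p]) := by
      rw [heq]; exact Submodule.subset_span hz'
    have h2 : Set.range ![z, p] = {z, p} := by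
      ext x; simp [Matrix.range_cons, or_comm]
    rw [h2, Submodule.mem_span_pair] at h1
    obtain ⟨a, b, hab⟩ := h1
    by_cases hb : b = 0
    · exact ⟨a, by rw [← hab, hb]; simp⟩
    · exfalso
      by_cases ha : a = 0
      · apply hnot z' hz' b⁻¹
        rw [← hab, ha, zero_smul, zero_add, smul_smul, inv_mul_cancel₀ hb, one_smul]
      · refine hsec (b⁻¹ • z') (hZ.smul_mem z' hz' _ (inv_ne_zero hb)) ((b⁻¹ * a) • z)
          (hZ.smul_mem z hz _ (mul_ne_zero (inv_ne_zero hb) ha)) ?_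
        rw [← hab, smul_add, smul_smul, smul_smul, inv_mul_cancel₀ hb, one_smul]
        abel
  have hW : W ≤ Submodule.span ℂ {z} := by
    rw [Submodule.span_le]
    intro z' hz'
    obtain ⟨a, ha⟩ := hall z' hz'
    exact Submodule.mem_span_singleton.2 ⟨a, ha.symm⟩
  obtain ⟨c, hc⟩ := Submodule.mem_span_singleton.1 (hW hp)
  exact hnot z hz c hc.symm

theorem occurs_of_jump {V₁ : Type} [NormedAddCommGroup V₁] [NormedSpace ℂ V₁]
    [FiniteDimensional ℂ V₁] (Z : Set V) (hZ : IsSmoothCone Z)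
    (p : V) (hp : p ∈ Submodule.span ℂ Z)
    (hsec : ∀ z ∈ Z, ∀ z' ∈ Z, z - z' ≠ p) (htan : ∀ z ∈ Z, ¬ IsTangent Z z p)
    (hdim : Module.finrank ℂ (Submodule.span ℂ Z) ≤ Module.finrank ℂ V₁)
    (f : V →ₗ[ℂ] V₁) (hf : ∀ w ∈ Submodule.span ℂ Z, f w = 0 → ∃ c : ℂ, w = c • p) :
    Occurs (f '' Z) := by
  have h3 := three_le_finrank hZ hp hsec
  obtain ⟨z₀, hz₀⟩ := hZ.isConnected.nonempty
  have hp0 : p ≠ 0 := fun h => hsec z₀ hz₀ z₀ hz₀ (by rw [sub_self, h])
  obtain ⟨k, hk⟩ : ∃ k, Module.finrank ℂ (Submodule.span ℂ Z) = k + 3 :=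
    ⟨Module.finrank ℂ (Submodule.span ℂ Z) - 3, by omega⟩
  obtain ⟨m, hm⟩ : ∃ m, Module.finrank ℂ V₁ = m + k + 3 :=
    ⟨Module.finrank ℂ V₁ - (k + 3), by omega⟩
  obtain ⟨ι, hι, hιp⟩ := exists_coords hk hp hp0
  have hker : ∀ (y : TJ m k), ∀ w ∈ Submodule.span ℂ Z, AJ m ι y w = 0 → ∃ c : ℂ, w = c • p := by
    intro y w hw h
    obtain ⟨c, hc⟩ := AJ_eq_zero' ι h
    refine ⟨c, ?_⟩
    rw [← sub_eq_zero]
    apply hι.inj _ (Submodule.sub_mem _ hw (Submodule.smul_mem _ _ hp))
    rw [map_sub, map_smul, hc, hιp]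
    ext <;> simp
  refine ⟨TJ m k, inferInstance, inferInstance, inferInstance, Set.univ,
    coneOf Set.univ (AJ m ι) Z, ?_, isBracketGenerating_coneJ hι,
    ⟨0, Set.mem_univ _, hasNonzeroF2_coneJ⟩, ?_⟩
  · refine isConeStructure_coneOf isOpen_univ isConnected_univ hZ
      (fun y _ => analyticAt_AJ ι y) ?_ ?_
    · intro y _ z hz z' hz' h
      have h1 : AJ m ι y (z - z') = 0 := by rw [map_sub, h, sub_self]
      obtain ⟨c, hc⟩ := hker y _ (Submodule.sub_mem _ (Submodule.subset_span hz)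
        (Submodule.subset_span hz')) h1
      by_cases hc0 : c = 0
      · rw [hc0, zero_smul] at hc
        exact sub_eq_zero.1 hc
      · exfalso
        apply hsec (c⁻¹ • z) (hZ.smul_mem z hz _ (inv_ne_zero hc0)) (c⁻¹ • z')
          (hZ.smul_mem z' hz' _ (inv_ne_zero hc0))
        rw [← smul_sub, hc, smul_smul, inv_mul_cancel₀ hc0, one_smul]
    · intro y _ z hz w hw h
      obtain ⟨c, hc⟩ := hker y w (isTangent_mem_span hw hz) h
      by_cases hc0 : c = 0
      · rw [hc, hc0, zero_smul]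
      · exfalso
        apply htan z hz
        have := isTangent_smul hw c⁻¹
        rwa [hc, smul_smul, inv_mul_cancel₀ hc0, one_smul] at this
  · by_cases hfp : f p = 0
    · obtain ⟨L, hL⟩ := exists_equiv_of_ker (Submodule.span ℂ Z) f
        (AJ m ι (0 : TJ m k) : V →ₗ[ℂ] TJ m k) (by
          intro w hw
          constructor
          · intro h
            obtain ⟨c, hc⟩ := hf w hw h
            show AJ m ι (0 : TJ m k) w = 0
            rw [hc, map_smul, AJ_apply, hιp]
            simp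
          · intro h
            obtain ⟨c, hc⟩ := hker 0 w hw h
            rw [hc, map_smul, hfp, smul_zero]) (hm.trans (finrank_TJ m k).symm)
      refine ⟨0, Set.mem_univ _, L, ?_⟩
      rw [fibre_coneOf (Set.mem_univ _), Set.image_image]
      exact Set.image_congr fun z hz => (hL z (Submodule.subset_span hz)).symm
    · have hy1 : ((0, 0, 0, 1) : TJ m k).2.2.2 ≠ 0 := one_ne_zero
      obtain ⟨L, hL⟩ := exists_equiv_of_ker (Submodule.span ℂ Z) f
        (AJ m ι ((0, 0, 0, 1) : TJ m k) : V →ₗ[ℂ] TJ m k) (by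
          intro w hw
          constructor
          · intro h
            obtain ⟨c, hc⟩ := hf w hw h
            rw [hc, map_smul] at h
            have hc0 : c = 0 := (smul_eq_zero.1 h).resolve_right hfp
            rw [hc, hc0, zero_smul, map_zero]
          · intro h
            have h1 : ι w = 0 := AJ_eq_zero ι hy1 h
            rw [hι.inj w hw h1, map_zero]) (hm.trans (finrank_TJ m k).symm)
      refine ⟨(0, 0, 0, 1), Set.mem_univ _, L, ?_⟩
      rw [fibre_coneOf (Set.mem_univ _), Set.image_image]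
      exact Set.image_congr fun z hz => (hL z (Submodule.subset_span hz)).symm

end Pool.Agent.MP_d19687_ag
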