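import Pool.Agent.MP_d19687_ag.JumpFinal

open Filter Topology Asymptotics

set_option linter.unusedSectionVars false

namespace Pool.Agent.MP_d19687_ag

/-- The manifold of the square-zero model. -/
abbrev TS (m k : ℕ) := ℂ × (Fin (m + 5) → ℂ) × ℂ × ℂ × (Fin k → ℂ)

/-- Coordinates on the span of the fibres. -/
abbrev ES (k : ℕ) := ℂ × ℂ × ℂ × ℂ × (Fin k → ℂ)

section model

variable {m k : ℕ}

/-- The constant part of the frame. -/
noncomputable def PS (m k : ℕ) : ES k →L[ℂ] TS m k :=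
  (ContinuousLinearMap.fst ℂ ℂ (ℂ × ℂ × ℂ × (Fin k → ℂ))).prod
    ((0 : ES k →L[ℂ] (Fin (m + 5) → ℂ)).prod
      ((ContinuousLinearMap.snd ℂ ℂ (ℂ × ℂ × (Fin k → ℂ))).comp
        (ContinuousLinearMap.snd ℂ ℂ (ℂ × ℂ × ℂ × (Fin k → ℂ)))))

/-- The coordinate `β`. -/
noncomputable def BS (k : ℕ) : ES k →L[ℂ] ℂ :=
  (ContinuousLinearMap.fst ℂ ℂ (ℂ × ℂ × (Fin k → ℂ))).comp
    (ContinuousLinearMap.snd ℂ ℂ (ℂ × ℂ × ℂ × (Fin k → ℂ)))

/-- The field `(0, γ^{(j)}(x), 0)`. -/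
noncomputable def GS (m k j : ℕ) (y : TS m k) : TS m k := (0, gam (m + 5) j y.1, 0)

/-- The frame of the model. -/
noncomputable def FS (y : TS m k) : ES k →L[ℂ] TS m k :=
  PS m k + ContinuousLinearMap.smulRightL ℂ (ES k) (TS m k) (BS k) (GS m k 0 y)

theorem FS_apply (y : TS m k) (w : ES k) :
    FS y w = (w.1, w.2.1 • gam (m + 5) 0 y.1, w.2.2) := by
  simp [FS, PS, BS, GS]

theorem analyticAt_GS (j : ℕ) (y : TS m k) : AnalyticAt ℂ (GS m k j) y := by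
  have h0 : AnalyticAt ℂ (fun _ : TS m k => (0 : ℂ)) y := analyticAt_const
  have h1 : AnalyticAt ℂ (fun y : TS m k => gam (m + 5) j y.1) y :=
    (analyticAt_gam (m + 5) j y.1).comp (f := fun y : TS m k => y.1) analyticAt_fst
  have h2 : AnalyticAt ℂ (fun _ : TS m k => (0 : ℂ × ℂ × (Fin k → ℂ))) y := analyticAt_const
  exact h0.prod (h1.prod h2)

theorem analyticAt_FS (y : TS m k) : AnalyticAt ℂ (FS (m := m) (k := k)) y := by
  have h1 : AnalyticAt ℂ (fun _ : TS m k => PS m k) y := analyticAt_const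
  have h3 : AnalyticAt ℂ (fun y : TS m k => ContinuousLinearMap.smulRightL ℂ (ES k) (TS m k)
      (BS k) (GS m k 0 y)) y :=
    ((ContinuousLinearMap.smulRightL ℂ (ES k) (TS m k) (BS k)).analyticAt _).comp
      (analyticAt_GS 0 y)
  exact h1.add h3

theorem lieBracket_GS (j : ℕ) :
    VectorField.lieBracket ℂ (fun _ : TS m k => ((1, 0, 0) : TS m k)) (GS m k j)
      = GS m k (j + 1) := by
  funext y
  have h1 : HasFDerivAt (fun y : TS m k => gam (m + 5) j y.1)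
      ((ContinuousLinearMap.toSpanSingleton ℂ (gam (m + 5) (j + 1) y.1)).comp
        (ContinuousLinearMap.fst ℂ ℂ ((Fin (m + 5) → ℂ) × ℂ × ℂ × (Fin k → ℂ)))) y :=
    HasFDerivAt.comp y (hasDerivAt_gam (m + 5) j y.1).hasFDerivAt hasFDerivAt_fst
  have h2 : HasFDerivAt (GS m k j)
      ((0 : TS m k →L[ℂ] ℂ).prod (((ContinuousLinearMap.toSpanSingleton ℂ
        (gam (m + 5) (j + 1) y.1)).comp
        (ContinuousLinearMap.fst ℂ ℂ ((Fin (m + 5) → ℂ) × ℂ × ℂ × (Fin k → ℂ)))).prod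
        (0 : TS m k →L[ℂ] ℂ × ℂ × (Fin k → ℂ)))) y :=
    (hasFDerivAt_const (0 : ℂ) y).prodMk (h1.prodMk
      (hasFDerivAt_const (0 : ℂ × ℂ × (Fin k → ℂ)) y))
  rw [VectorField.lieBracket_eq]
  simp only [h2.fderiv, fderiv_fun_const]
  simp [GS]

/-- The polynomial `F₂`. -/
noncomputable def F2 (v0 v1 v2 v3 v4 : ℂ) : ℂ :=
  v0 * (-15 * (v2 * v4) + 16 * (v3 * v3)) + v1 * (20 * (v1 * v4) - 48 * (v2 * v3))
    + v2 * (27 * (v2 * v2))

/-- The polynomial `F₁`. -/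
noncomputable def F1 (x v0 v1 v2 v3 v4 : ℂ) : ℂ :=
  x * ((-15 * (v2 * v4) + 16 * (v3 * v3)) + x * ((20 * (v1 * v4) - 24 * (v2 * v3))
    + x * ((-5 * (v0 * v4) - 16 * (v1 * v3) + 27 * (v2 * v2))
    + x * ((8 * (v0 * v3) - 12 * (v1 * v2)) + x * (-3 * (v0 * v2) + 4 * (v1 * v1))))))

/-- The polynomial `a`, the derivative of `F₂` along `γ(x)` and of `F₁` along `x`. -/
noncomputable def Fa (x v0 v1 v2 v3 v4 : ℂ) : ℂ :=
  (-15 * (v2 * v4) + 16 * (v3 * v3)) + x * (40 * (v1 * v4) - 48 * (v2 * v3))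
    + x ^ 2 * (-15 * (v0 * v4) - 48 * (v1 * v3) + 81 * (v2 * v2))
    + x ^ 3 * (32 * (v0 * v3) - 48 * (v1 * v2)) + x ^ 4 * (-15 * (v0 * v2) + 20 * (v1 * v1))

theorem hasDerivAt_lin (c u : ℂ) : HasDerivAt (fun t : ℂ => c + t * u) u 0 := by
  simpa using ((hasDerivAt_id (0 : ℂ)).mul_const u).const_add c

theorem hasDerivAt_F2 (x v0 v1 v2 v3 v4 β : ℂ) :
    HasDerivAt (fun t : ℂ => F2 (v0 + t * β) (v1 + t * (β * x)) (v2 + t * (β * x ^ 2))
      (v3 + t * (β * x ^ 3)) (v4 + t * (β * x ^ 4))) (Fa x v0 v1 v2 v3 v4 * β) 0 := by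
  have h0 := hasDerivAt_lin v0 β
  have h1 := hasDerivAt_lin v1 (β * x)
  have h2 := hasDerivAt_lin v2 (β * x ^ 2)
  have h3 := hasDerivAt_lin v3 (β * x ^ 3)
  have h4 := hasDerivAt_lin v4 (β * x ^ 4)
  have := ((h0.mul (((h2.mul h4).const_mul (-15)).add ((h3.mul h3).const_mul 16))).add
    (h1.mul (((h1.mul h4).const_mul 20).sub ((h2.mul h3).const_mul 48)))).add
    (h2.mul ((h2.mul h2).const_mul 27))
  refine this.congr_deriv ?_
  simp only [Fa, Pi.mul_apply, Pi.add_apply, Pi.sub_apply]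
  ring

theorem hasDerivAt_F1 (x v0 v1 v2 v3 v4 α β : ℂ) :
    HasDerivAt (fun t : ℂ => F1 (x + t * α) (v0 + t * β) (v1 + t * (β * x))
      (v2 + t * (β * x ^ 2)) (v3 + t * (β * x ^ 3)) (v4 + t * (β * x ^ 4)))
      (Fa x v0 v1 v2 v3 v4 * α) 0 := by
  have hx := hasDerivAt_lin x α
  have h0 := hasDerivAt_lin v0 β
  have h1 := hasDerivAt_lin v1 (β * x)
  have h2 := hasDerivAt_lin v2 (β * x ^ 2)
  have h3 := hasDerivAt_lin v3 (β * x ^ 3)
  have h4 := hasDerivAt_lin v4 (β * x ^ 4)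
  have := hx.mul ((((h2.mul h4).const_mul (-15)).add ((h3.mul h3).const_mul 16)).add
    (hx.mul ((((h1.mul h4).const_mul 20).sub ((h2.mul h3).const_mul 24)).add
    (hx.mul (((((h0.mul h4).const_mul (-5)).sub ((h1.mul h3).const_mul 16)).add
      ((h2.mul h2).const_mul 27)).add
    (hx.mul ((((h0.mul h3).const_mul 8).sub ((h1.mul h2).const_mul 12)).add
    (hx.mul (((h0.mul h2).const_mul (-3)).add ((h1.mul h1).const_mul 4))))))))))
  refine this.congr_deriv ?_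
  simp only [Fa, Pi.mul_apply, Pi.add_apply, Pi.sub_apply]
  ring

/-- The affine coordinates centred at `c` in which the frame has the same form. -/
noncomputable def wS (c : TS m k) (y : TS m k) : Fin 5 → ℂ :=
  ![y.2.1 0 - c.2.1 0,
    (y.2.1 1 - c.2.1 1) - c.1 * (y.2.1 0 - c.2.1 0),
    (y.2.1 2 - c.2.1 2) - 2 * c.1 * (y.2.1 1 - c.2.1 1) + c.1 ^ 2 * (y.2.1 0 - c.2.1 0),
    (y.2.1 3 - c.2.1 3) - 3 * c.1 * (y.2.1 2 - c.2.1 2) + 3 * c.1 ^ 2 * (y.2.1 1 - c.2.1 1)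
      - c.1 ^ 3 * (y.2.1 0 - c.2.1 0),
    (y.2.1 4 - c.2.1 4) - 4 * c.1 * (y.2.1 3 - c.2.1 3) + 6 * c.1 ^ 2 * (y.2.1 2 - c.2.1 2)
      - 4 * c.1 ^ 3 * (y.2.1 1 - c.2.1 1) + c.1 ^ 4 * (y.2.1 0 - c.2.1 0)]

/-- The symmetry vanishing to order three at `c`. -/
noncomputable def sS (c : TS m k) (y : TS m k) : TS m k :=
  (0, 0, F1 (y.1 - c.1) (wS c y 0) (wS c y 1) (wS c y 2) (wS c y 3) (wS c y 4),
    F2 (wS c y 0) (wS c y 1) (wS c y 2) (wS c y 3) (wS c y 4), 0)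

/-- The value of `a`. -/
noncomputable def aS (c : TS m k) (y : TS m k) : ℂ :=
  Fa (y.1 - c.1) (wS c y 0) (wS c y 1) (wS c y 2) (wS c y 3) (wS c y 4)

theorem analyticAt_coord (i : Fin (m + 5)) (y : TS m k) :
    AnalyticAt ℂ (fun y : TS m k => y.2.1 i) y :=
  ((ContinuousLinearMap.proj (R := ℂ) (φ := fun _ : Fin (m + 5) => ℂ) i).comp
    ((ContinuousLinearMap.fst ℂ (Fin (m + 5) → ℂ) (ℂ × ℂ × (Fin k → ℂ))).comp
      (ContinuousLinearMap.snd ℂ ℂ ((Fin (m + 5) → ℂ) × ℂ × ℂ × (Fin k → ℂ))))).analyticAt y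

theorem analyticAt_wS (c y : TS m k) (i : Fin 5) : AnalyticAt ℂ (fun y : TS m k => wS c y i) y := by
  have h0 := (analyticAt_coord (m := m) (k := k) 0 y).sub
    (analyticAt_const (v := c.2.1 0))
  have h1 := (analyticAt_coord (m := m) (k := k) 1 y).sub
    (analyticAt_const (v := c.2.1 1))
  have h2 := (analyticAt_coord (m := m) (k := k) 2 y).sub
    (analyticAt_const (v := c.2.1 2))
  have h3 := (analyticAt_coord (m := m) (k := k) 3 y).sub
    (analyticAt_const (v := c.2.1 3))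
  have h4 := (analyticAt_coord (m := m) (k := k) 4 y).sub
    (analyticAt_const (v := c.2.1 4))
  have hc : ∀ c : ℂ, AnalyticAt ℂ (fun _ : TS m k => c) y := fun c => analyticAt_const
  fin_cases i
  · exact h0
  · exact h1.sub ((hc c.1).mul h0)
  · exact (h2.sub ((hc (2 * c.1)).mul h1)).add ((hc (c.1 ^ 2)).mul h0)
  · exact ((h3.sub ((hc (3 * c.1)).mul h2)).add ((hc (3 * c.1 ^ 2)).mul h1)).sub
      ((hc (c.1 ^ 3)).mul h0)
  · exact (((h4.sub ((hc (4 * c.1)).mul h3)).add ((hc (6 * c.1 ^ 2)).mul h2)).sub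
      ((hc (4 * c.1 ^ 3)).mul h1)).add ((hc (c.1 ^ 4)).mul h0)

theorem analyticAt_sS (c y : TS m k) : AnalyticAt ℂ (sS c) y := by
  have hx : AnalyticAt ℂ (fun y : TS m k => y.1 - c.1) y := analyticAt_fst.sub analyticAt_const
  have h0 := analyticAt_wS c y 0
  have h1 := analyticAt_wS c y 1
  have h2 := analyticAt_wS c y 2
  have h3 := analyticAt_wS c y 3
  have h4 := analyticAt_wS c y 4
  have hc : ∀ c : ℂ, AnalyticAt ℂ (fun _ : TS m k => c) y := fun c => analyticAt_const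
  have hF1 : AnalyticAt ℂ (fun y : TS m k =>
      F1 (y.1 - c.1) (wS c y 0) (wS c y 1) (wS c y 2) (wS c y 3) (wS c y 4)) y :=
    hx.mul ((((hc (-15)).mul (h2.mul h4)).add ((hc 16).mul (h3.mul h3))).add
      (hx.mul ((((hc 20).mul (h1.mul h4)).sub ((hc 24).mul (h2.mul h3))).add
      (hx.mul (((((hc (-5)).mul (h0.mul h4)).sub ((hc 16).mul (h1.mul h3))).add
        ((hc 27).mul (h2.mul h2))).add
      (hx.mul ((((hc 8).mul (h0.mul h3)).sub ((hc 12).mul (h1.mul h2))).add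
      (hx.mul (((hc (-3)).mul (h0.mul h2)).add ((hc 4).mul (h1.mul h1)))))))))))
  have hF2 : AnalyticAt ℂ (fun y : TS m k =>
      F2 (wS c y 0) (wS c y 1) (wS c y 2) (wS c y 3) (wS c y 4)) y :=
    ((h0.mul (((hc (-15)).mul (h2.mul h4)).add ((hc 16).mul (h3.mul h3)))).add
      (h1.mul (((hc 20).mul (h1.mul h4)).sub ((hc 48).mul (h2.mul h3))))).add
      (h2.mul ((hc 27).mul (h2.mul h2)))
  have hz : AnalyticAt ℂ (fun _ : TS m k => (0 : Fin (m + 5) → ℂ)) y := analyticAt_const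
  have hz' : AnalyticAt ℂ (fun _ : TS m k => (0 : Fin k → ℂ)) y := analyticAt_const
  exact (hc 0).prod (hz.prod (hF1.prod (hF2.prod hz')))

theorem val_lt (i : ℕ) (hi : i < 5) : ((Fin.ofNat (m + 5) i : Fin (m + 5)) : ℕ) = i := by
  simp only [Fin.ofNat_eq_cast, Fin.val_natCast]
  exact Nat.mod_eq_of_lt (by omega)

theorem gam_vals (x : ℂ) : gam (m + 5) 0 x 0 = 1 ∧ gam (m + 5) 0 x 1 = x ∧
    gam (m + 5) 0 x 2 = x ^ 2 ∧ gam (m + 5) 0 x 3 = x ^ 3 ∧ gam (m + 5) 0 x 4 = x ^ 4 := by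
  have h0 := val_lt (m := m) 0 (by norm_num)
  have h1 := val_lt (m := m) 1 (by norm_num)
  have h2 := val_lt (m := m) 2 (by norm_num)
  have h3 := val_lt (m := m) 3 (by norm_num)
  have h4 := val_lt (m := m) 4 (by norm_num)
  refine ⟨?_, ?_, ?_, ?_, ?_⟩
  · rw [gam_zero]; simp
  · rw [gam_zero]
    have : (((1 : Fin (m + 5)) : ℕ)) = 1 := h1
    rw [this, pow_one]
  · rw [gam_zero]
    have : (((2 : Fin (m + 5)) : ℕ)) = 2 := h2
    rw [this]
  · rw [gam_zero]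
    have : (((3 : Fin (m + 5)) : ℕ)) = 3 := h3
    rw [this]
  · rw [gam_zero]
    have : (((4 : Fin (m + 5)) : ℕ)) = 4 := h4
    rw [this]

theorem wS_line (c y : TS m k) (e : ES k) (t : ℂ) :
    wS c (y + t • FS y e) 0 = wS c y 0 + t * e.2.1 ∧
    wS c (y + t • FS y e) 1 = wS c y 1 + t * (e.2.1 * (y.1 - c.1)) ∧
    wS c (y + t • FS y e) 2 = wS c y 2 + t * (e.2.1 * (y.1 - c.1) ^ 2) ∧
    wS c (y + t • FS y e) 3 = wS c y 3 + t * (e.2.1 * (y.1 - c.1) ^ 3) ∧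
    wS c (y + t • FS y e) 4 = wS c y 4 + t * (e.2.1 * (y.1 - c.1) ^ 4) := by
  obtain ⟨g0, g1, g2, g3, g4⟩ := gam_vals (m := m) y.1
  have h0 : (y + t • FS y e).2.1 0 = y.2.1 0 + t * e.2.1 := by
    simp only [FS_apply, Prod.fst_add, Prod.snd_add, Prod.smul_fst, Prod.smul_snd,
      Pi.add_apply, Pi.smul_apply, smul_eq_mul, g0, mul_one]
  have h1 : (y + t • FS y e).2.1 1 = y.2.1 1 + t * (e.2.1 * y.1) := by
    simp only [FS_apply, Prod.fst_add, Prod.snd_add, Prod.smul_fst, Prod.smul_snd,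
      Pi.add_apply, Pi.smul_apply, smul_eq_mul, g1]
  have h2 : (y + t • FS y e).2.1 2 = y.2.1 2 + t * (e.2.1 * y.1 ^ 2) := by
    simp only [FS_apply, Prod.fst_add, Prod.snd_add, Prod.smul_fst, Prod.smul_snd,
      Pi.add_apply, Pi.smul_apply, smul_eq_mul, g2]
  have h3 : (y + t • FS y e).2.1 3 = y.2.1 3 + t * (e.2.1 * y.1 ^ 3) := by
    simp only [FS_apply, Prod.fst_add, Prod.snd_add, Prod.smul_fst, Prod.smul_snd,
      Pi.add_apply, Pi.smul_apply, smul_eq_mul, g3]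
  have h4 : (y + t • FS y e).2.1 4 = y.2.1 4 + t * (e.2.1 * y.1 ^ 4) := by
    simp only [FS_apply, Prod.fst_add, Prod.snd_add, Prod.smul_fst, Prod.smul_snd,
      Pi.add_apply, Pi.smul_apply, smul_eq_mul, g4]
  refine ⟨?_, ?_, ?_, ?_, ?_⟩
  · show (y + t • FS y e).2.1 0 - c.2.1 0 = (y.2.1 0 - c.2.1 0) + t * e.2.1
    rw [h0]; ring
  · show ((y + t • FS y e).2.1 1 - c.2.1 1) - c.1 * ((y + t • FS y e).2.1 0 - c.2.1 0)
      = ((y.2.1 1 - c.2.1 1) - c.1 * (y.2.1 0 - c.2.1 0)) + t * (e.2.1 * (y.1 - c.1))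
    rw [h0, h1]; ring
  · show ((y + t • FS y e).2.1 2 - c.2.1 2) - 2 * c.1 * ((y + t • FS y e).2.1 1 - c.2.1 1)
        + c.1 ^ 2 * ((y + t • FS y e).2.1 0 - c.2.1 0)
      = ((y.2.1 2 - c.2.1 2) - 2 * c.1 * (y.2.1 1 - c.2.1 1) + c.1 ^ 2 * (y.2.1 0 - c.2.1 0))
        + t * (e.2.1 * (y.1 - c.1) ^ 2)
    rw [h0, h1, h2]; ring
  · show ((y + t • FS y e).2.1 3 - c.2.1 3) - 3 * c.1 * ((y + t • FS y e).2.1 2 - c.2.1 2)
        + 3 * c.1 ^ 2 * ((y + t • FS y e).2.1 1 - c.2.1 1)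
        - c.1 ^ 3 * ((y + t • FS y e).2.1 0 - c.2.1 0)
      = ((y.2.1 3 - c.2.1 3) - 3 * c.1 * (y.2.1 2 - c.2.1 2) + 3 * c.1 ^ 2 * (y.2.1 1 - c.2.1 1)
        - c.1 ^ 3 * (y.2.1 0 - c.2.1 0)) + t * (e.2.1 * (y.1 - c.1) ^ 3)
    rw [h0, h1, h2, h3]; ring
  · show ((y + t • FS y e).2.1 4 - c.2.1 4) - 4 * c.1 * ((y + t • FS y e).2.1 3 - c.2.1 3)
        + 6 * c.1 ^ 2 * ((y + t • FS y e).2.1 2 - c.2.1 2)
        - 4 * c.1 ^ 3 * ((y + t • FS y e).2.1 1 - c.2.1 1)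
        + c.1 ^ 4 * ((y + t • FS y e).2.1 0 - c.2.1 0)
      = ((y.2.1 4 - c.2.1 4) - 4 * c.1 * (y.2.1 3 - c.2.1 3) + 6 * c.1 ^ 2 * (y.2.1 2 - c.2.1 2)
        - 4 * c.1 ^ 3 * (y.2.1 1 - c.2.1 1) + c.1 ^ 4 * (y.2.1 0 - c.2.1 0))
        + t * (e.2.1 * (y.1 - c.1) ^ 4)
    rw [h0, h1, h2, h3, h4]; ring

/-- The derivative of the symmetry along the frame. -/
theorem fderiv_sS (c y : TS m k) (e : ES k) :
    fderiv ℂ (sS c) y (FS y e) = (0, 0, aS c y * e.1, aS c y * e.2.1, 0) := by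
  have hd : DifferentiableAt ℂ (sS c) y := (analyticAt_sS c y).differentiableAt
  have hline : HasDerivAt (fun t : ℂ => y + t • FS y e) (FS y e) 0 := by
    simpa using ((hasDerivAt_id (0 : ℂ)).smul_const (FS y e)).const_add y
  have hcomp : HasDerivAt (fun t : ℂ => sS c (y + t • FS y e))
      (fderiv ℂ (sS c) y (FS y e)) 0 := by
    have h0 : HasFDerivAt (sS c) (fderiv ℂ (sS c) y) (y + (0 : ℂ) • FS y e) := by
      rw [zero_smul, add_zero]; exact hd.hasFDerivAt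
    exact h0.comp_hasDerivAt (0 : ℂ) hline
  have hexp : (fun t : ℂ => sS c (y + t • FS y e)) = fun t : ℂ =>
      ((0, 0, F1 ((y.1 - c.1) + t * e.1) (wS c y 0 + t * e.2.1)
        (wS c y 1 + t * (e.2.1 * (y.1 - c.1)))
        (wS c y 2 + t * (e.2.1 * (y.1 - c.1) ^ 2)) (wS c y 3 + t * (e.2.1 * (y.1 - c.1) ^ 3))
        (wS c y 4 + t * (e.2.1 * (y.1 - c.1) ^ 4)),
        F2 (wS c y 0 + t * e.2.1) (wS c y 1 + t * (e.2.1 * (y.1 - c.1)))
        (wS c y 2 + t * (e.2.1 * (y.1 - c.1) ^ 2)) (wS c y 3 + t * (e.2.1 * (y.1 - c.1) ^ 3))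
        (wS c y 4 + t * (e.2.1 * (y.1 - c.1) ^ 4)), 0) : TS m k) := by
    funext t
    obtain ⟨w0, w1, w2, w3, w4⟩ := wS_line c y e t
    have hx : (y + t • FS y e).1 - c.1 = (y.1 - c.1) + t * e.1 := by
      simp only [FS_apply, Prod.fst_add, Prod.smul_fst, smul_eq_mul]
      ring
    simp only [sS, w0, w1, w2, w3, w4, hx]
  rw [hexp] at hcomp
  have hd1 := hasDerivAt_F1 (y.1 - c.1) (wS c y 0) (wS c y 1) (wS c y 2) (wS c y 3) (wS c y 4)
    e.1 e.2.1
  have hd2 := hasDerivAt_F2 (y.1 - c.1) (wS c y 0) (wS c y 1) (wS c y 2) (wS c y 3) (wS c y 4)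
    e.2.1
  have hd3 := (hasDerivAt_const (0 : ℂ) (0 : ℂ)).prodMk
    ((hasDerivAt_const (0 : ℂ) (0 : Fin (m + 5) → ℂ)).prodMk
      (hd1.prodMk (hd2.prodMk (hasDerivAt_const (0 : ℂ) (0 : Fin k → ℂ)))))
  exact hcomp.unique hd3

theorem norm_sS_isBigO (c : TS m k) : (sS c) =O[𝓝 c] fun y => ‖y - c‖ ^ 3 := by
  set u : TS m k → ℝ := fun y => ‖y - c‖ with hu
  have hx : (fun y : TS m k => y.1 - c.1) =O[𝓝 c] u :=
    IsBigO.of_bound 1 (Eventually.of_forall fun y => by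
      rw [one_mul, hu, norm_norm]; exact norm_fst_le (y - c))
  have hv : ∀ i : Fin (m + 5), (fun y : TS m k => y.2.1 i - c.2.1 i) =O[𝓝 c] u := fun i =>
    IsBigO.of_bound 1 (Eventually.of_forall fun y => by
      rw [one_mul, hu, norm_norm]
      exact (norm_le_pi_norm ((y - c).2.1) i).trans
        ((norm_fst_le (y - c).2).trans (norm_snd_le (y - c))))
  have hw : ∀ i : Fin 5, (fun y : TS m k => wS c y i) =O[𝓝 c] u := by
    intro i
    fin_cases i
    · exact hv 0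
    · exact (hv 1).sub ((hv 0).const_mul_left c.1)
    · exact ((hv 2).sub ((hv 1).const_mul_left (2 * c.1))).add ((hv 0).const_mul_left (c.1 ^ 2))
    · exact (((hv 3).sub ((hv 2).const_mul_left (3 * c.1))).add
        ((hv 1).const_mul_left (3 * c.1 ^ 2))).sub ((hv 0).const_mul_left (c.1 ^ 3))
    · exact ((((hv 4).sub ((hv 3).const_mul_left (4 * c.1))).add
        ((hv 2).const_mul_left (6 * c.1 ^ 2))).sub ((hv 1).const_mul_left (4 * c.1 ^ 3))).add
        ((hv 0).const_mul_left (c.1 ^ 4))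
  have hx1 : (fun y : TS m k => y.1 - c.1) =O[𝓝 c] fun _ => (1 : ℝ) :=
    ((continuous_fst.sub continuous_const).continuousAt (x := c)).tendsto.isBigO_one ℝ
  have hvv : ∀ (a : ℂ) (i j : Fin 5),
      (fun y : TS m k => a * (wS c y i * wS c y j)) =O[𝓝 c] fun y => u y * u y := fun a i j =>
    ((hw i).mul (hw j)).const_mul_left a
  have hxq : ∀ {q : TS m k → ℂ}, q =O[𝓝 c] (fun y => u y * u y) →
      (fun y : TS m k => (y.1 - c.1) * q y) =O[𝓝 c] fun y => u y * u y := by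
    intro q hq
    have := hx1.mul hq
    simpa using this
  have hF1 : (fun y : TS m k =>
      F1 (y.1 - c.1) (wS c y 0) (wS c y 1) (wS c y 2) (wS c y 3) (wS c y 4))
      =O[𝓝 c] fun y => u y * (u y * u y) :=
    hx.mul (((hvv (-15) 2 4).add (hvv 16 3 3)).add
      (hxq (((hvv 20 1 4).sub (hvv 24 2 3)).add
      (hxq ((((hvv (-5) 0 4).sub (hvv 16 1 3)).add (hvv 27 2 2)).add
      (hxq (((hvv 8 0 3).sub (hvv 12 1 2)).add
      (hxq ((hvv (-3) 0 2).add (hvv 4 1 1))))))))))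
  have hF2 : (fun y : TS m k =>
      F2 (wS c y 0) (wS c y 1) (wS c y 2) (wS c y 3) (wS c y 4))
      =O[𝓝 c] fun y => u y * (u y * u y) :=
    (((hw 0).mul ((hvv (-15) 2 4).add (hvv 16 3 3))).add
      ((hw 1).mul ((hvv 20 1 4).sub (hvv 48 2 3)))).add ((hw 2).mul (hvv 27 2 2))
  have hz : (fun _ : TS m k => (0 : ℂ)) =O[𝓝 c] fun y => u y * (u y * u y) := isBigO_zero _ _
  have hz1 : (fun _ : TS m k => (0 : Fin (m + 5) → ℂ)) =O[𝓝 c] fun y => u y * (u y * u y) :=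
    isBigO_zero _ _
  have hz2 : (fun _ : TS m k => (0 : Fin k → ℂ)) =O[𝓝 c] fun y => u y * (u y * u y) :=
    isBigO_zero _ _
  have hall : (sS c) =O[𝓝 c] fun y => u y * (u y * u y) :=
    hz.prod_left (hz1.prod_left (hF1.prod_left (hF2.prod_left hz2)))
  refine hall.congr_right fun y => ?_
  simp only [hu]
  ring

end model

variable {V : Type*} [NormedAddCommGroup V] [NormedSpace ℂ V] [FiniteDimensional ℂ V]

section main

variable {m k : ℕ} {Z : Set V} {ι : V →L[ℂ] ES k}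

/-- The frame of the cone structure. -/
noncomputable def AS (m : ℕ) (ι : V →L[ℂ] ES k) (y : TS m k) : V →L[ℂ] TS m k := (FS y).comp ι

theorem AS_apply (y : TS m k) (w : V) : AS m ι y w =
    ((ι w).1, (ι w).2.1 • gam (m + 5) 0 y.1, (ι w).2.2) := by
  simp [AS, FS_apply]

theorem FS_eq_zero {y : TS m k} {e : ES k} (h : FS y e = 0) : e = 0 := by
  rw [FS_apply] at h
  simp only [Prod.mk_eq_zero] at h
  obtain ⟨h1, h2, h3⟩ := h
  have h2' : e.2.1 = 0 := (smul_eq_zero.1 h2).resolve_right (gam_ne_zero (m + 4) _)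
  exact Prod.ext h1 (Prod.ext h2' h3)

theorem analyticAt_AS (y : TS m k) : AnalyticAt ℂ (AS m ι) y := by
  have h : AnalyticAt ℂ (fun y : TS m k => (FS y).comp ι) y :=
    (((ContinuousLinearMap.compL ℂ V (ES k) (TS m k)).flip ι).analyticAt _).comp
      (analyticAt_FS y)
  exact h

/-- The standing hypothesis: `ι` restricts to a bijection from the span of `Z`. -/
structure GoodCoordS (Z : Set V) (ι : V →L[ℂ] ES k) : Prop where
  inj : ∀ w ∈ Submodule.span ℂ Z, ι w = 0 → w = 0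
  surj : ∀ e : ES k, ∃ w ∈ Submodule.span ℂ Z, ι w = e

theorem FS_mem (hι : GoodCoordS Z ι) (y : TS m k) (e : ES k) :
    FS y e ∈ fibreSpan (coneOf Set.univ (AS m ι) Z) y := by
  rw [fibreSpan_coneOf (Set.mem_univ y)]
  obtain ⟨w, hw, he⟩ := hι.surj e
  exact ⟨w, hw, by simp [AS, he]⟩

theorem iterBracket_GS (hι : GoodCoordS Z ι) (y : TS m k) (j : ℕ) :
    IterBracket (coneOf Set.univ (AS m ι) Z) y (GS m k j) := by
  induction j with
  | zero =>
    refine IterBracket.base _ (analyticAt_GS 0 y) (Eventually.of_forall fun y' => ?_)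
    have := FS_mem hι y' (0, 1, 0)
    rw [FS_apply] at this
    simpa [GS] using this
  | succ j ih =>
    rw [← lieBracket_GS]
    refine IterBracket.bracket _ _ ?_ ih
    refine IterBracket.base _ analyticAt_const (Eventually.of_forall fun y' => ?_)
    have := FS_mem hι y' (1, 0, 0)
    rw [FS_apply] at this
    simpa using this

theorem isBracketGenerating_coneS (hι : GoodCoordS Z ι) :
    IsBracketGenerating Set.univ (coneOf Set.univ (AS m ι) Z) := by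
  intro y _
  set S := Submodule.span ℂ
    {v : TS m k | ∃ X, IterBracket (coneOf Set.univ (AS m ι) Z) y X ∧ X y = v} with hS
  have m1 : ((1, 0, 0) : TS m k) ∈ S := by
    refine Submodule.subset_span ⟨fun _ => (1, 0, 0), ?_, rfl⟩
    refine IterBracket.base _ analyticAt_const (Eventually.of_forall fun y' => ?_)
    have := FS_mem hι y' (1, 0, 0)
    rw [FS_apply] at this
    simpa using this
  have m3 : ∀ κ : ℂ × ℂ × (Fin k → ℂ), ((0, 0, κ) : TS m k) ∈ S := by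
    intro κ
    refine Submodule.subset_span ⟨fun _ => (0, 0, κ), ?_, rfl⟩
    refine IterBracket.base _ analyticAt_const (Eventually.of_forall fun y' => ?_)
    have := FS_mem hι y' (0, 0, κ)
    rw [FS_apply] at this
    simpa using this
  have m2 : ∀ u : Fin (m + 5) → ℂ, ((0, u, 0) : TS m k) ∈ S := by
    have hle : (⊤ : Submodule ℂ (Fin (m + 5) → ℂ)) ≤ S.comap
        ((LinearMap.inr ℂ ℂ ((Fin (m + 5) → ℂ) × ℂ × ℂ × (Fin k → ℂ))).comp
          (LinearMap.inl ℂ (Fin (m + 5) → ℂ) (ℂ × ℂ × (Fin k → ℂ)))) := by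
      rw [← span_gam (m + 5) y.1, Submodule.span_le]
      rintro _ ⟨j, rfl⟩
      exact Submodule.subset_span ⟨GS m k j, iterBracket_GS hι y j, rfl⟩
    intro u
    exact hle (Submodule.mem_top (x := u))
  rw [eq_top_iff]
  rintro ⟨a, u, κ⟩ -
  have hdec : ((a, u, κ) : TS m k)
      = a • (1, 0, 0) + ((0, u, 0) + (0, 0, κ)) := by
    ext <;> simp
  rw [hdec]
  exact S.add_mem (S.smul_mem _ m1) (S.add_mem (m2 u) (m3 κ))

/-- `ι` carries `N` to the normal form. -/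
def NormalForm (Z : Set V) (ι : V →L[ℂ] ES k) (N : V →ₗ[ℂ] V) : Prop :=
  ∀ w ∈ Submodule.span ℂ Z, ι (N w) = (0, 0, (ι w).1, (ι w).2.1, 0)

theorem hasNonzeroF2_coneS {N : V →ₗ[ℂ] V} (hN : ∀ z ∈ Z, IsTangent Z z (N z))
    (hnf : NormalForm Z ι N) (c : TS m k) :
    HasNonzeroF2 (coneOf Set.univ (AS m ι) Z) c := by
  refine ⟨sS c, ⟨analyticAt_sS c c, Eventually.of_forall fun y v hv => ?_⟩, ?_,
    norm_sS_isBigO c⟩
  · obtain ⟨_, z, hz, hvz⟩ := hv
    simp only at hvz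
    obtain ⟨ζ, hζ, hζ0, hζd, hζZ⟩ := isTangent_smul (hN z hz) (aS c y)
    have hy : HasDerivAt (fun t : ℂ => y + t • sS c y) (sS c y) 0 := by
      simpa using ((hasDerivAt_id (0 : ℂ)).smul_const (sS c y)).const_add y
    have hA : ∀ t : ℂ, AS m ι (y + t • sS c y) = AS m ι y := by
      intro t
      ext1 w
      rw [AS_apply, AS_apply]
      simp [sS]
    have hζd' : HasDerivAt ζ (aS c y • N z) 0 := by
      rw [← hζd]; exact hζ.differentiableAt.hasDerivAt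
    have hd2 : HasDerivAt (fun t : ℂ => AS m ι y (ζ t)) (AS m ι y (aS c y • N z)) 0 :=
      (AS m ι y).hasFDerivAt.comp_hasDerivAt (0 : ℂ) hζd'
    refine ⟨fun t => (y + t • sS c y, AS m ι y (ζ t)), ?_, ?_, ?_, ?_⟩
    · have h1 : AnalyticAt ℂ (fun t : ℂ => y + t • sS c y) 0 :=
        analyticAt_const.add (analyticAt_id.smul analyticAt_const)
      have h2 : AnalyticAt ℂ (fun t : ℂ => AS m ι y (ζ t)) 0 :=
        ((AS m ι y).analyticAt _).comp hζ
      exact h1.prod h2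
    · simp [hvz, hζ0]
    · rw [(hy.prodMk hd2).deriv, hvz]
      refine Prod.ext rfl ?_
      show AS m ι y (aS c y • N z) = fderiv ℂ (sS c) y (FS y (ι z))
      rw [fderiv_sS, map_smul, AS_apply, hnf z (Submodule.subset_span hz)]
      simp
    · filter_upwards [hζZ] with t ht
      refine ⟨Set.mem_univ _, ζ t, ht, ?_⟩
      show AS m ι y (ζ t) = AS m ι (y + t • sS c y) (ζ t)
      rw [hA t]
  · intro h
    have hlim : Tendsto (fun t : ℂ => c + t • ((0, Pi.single 2 1, 0) : TS m k)) (𝓝[≠] 0)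
        (𝓝 c) := by
      have : Continuous fun t : ℂ => c + t • ((0, Pi.single 2 1, 0) : TS m k) := by fun_prop
      have h := this.tendsto 0
      rw [zero_smul, add_zero] at h
      exact h.mono_left nhdsWithin_le_nhds
    obtain ⟨t, ht, hne⟩ := ((hlim.eventually h).and self_mem_nhdsWithin).exists
    have h5 := congrArg (fun y : TS m k => y.2.2.2.1) ht
    have d0 : (0 : Fin (m + 5)) ≠ 2 := by
      intro hh
      have := congrArg Fin.val hh
      have h2 : (((2 : Fin (m + 5)) : ℕ)) = 2 := val_lt (m := m) 2 (by norm_num)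
      rw [h2] at this
      simp at this
    have d1 : (1 : Fin (m + 5)) ≠ 2 := by
      intro hh
      have := congrArg Fin.val hh
      have h2 : (((2 : Fin (m + 5)) : ℕ)) = 2 := val_lt (m := m) 2 (by norm_num)
      have h1 : (((1 : Fin (m + 5)) : ℕ)) = 1 := val_lt (m := m) 1 (by norm_num)
      rw [h2, h1] at this
      omega
    have w0 : wS c (c + t • ((0, Pi.single 2 1, 0) : TS m k)) 0 = 0 := by
      simp [wS, Pi.single_apply, d0]
    have w1 : wS c (c + t • ((0, Pi.single 2 1, 0) : TS m k)) 1 = 0 := by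
      simp [wS, Pi.single_apply, d0, d1]
    have w2 : wS c (c + t • ((0, Pi.single 2 1, 0) : TS m k)) 2 = t := by
      simp [wS, Pi.single_apply, d0, d1]
    simp only [sS, F2, w0, w1, w2] at h5
    have h6 : t * (27 * (t * t)) = 0 := by simpa using h5
    have ht0 : t ≠ 0 := hne
    exact (mul_ne_zero ht0 (mul_ne_zero (by norm_num) (mul_ne_zero ht0 ht0))) h6

end main


end Pool.Agent.MP_d19687_ag
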