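import Pool.Agent.MP_d19687_ag.Square

open Filter Topology Asymptotics

set_option linter.unusedSectionVars false

namespace Pool.Agent.MP_d19687_ag

variable {V : Type*} [NormedAddCommGroup V] [NormedSpace ℂ V] [FiniteDimensional ℂ V]

theorem finrank_ES (k : ℕ) : Module.finrank ℂ (ES k) = k + 4 := by
  simp [ES]; ring

theorem finrank_TS (m k : ℕ) : Module.finrank ℂ (TS m k) = m + k + 8 := by
  simp [TS]; ring

/-- Normal form of a square-zero endomorphism of rank two. -/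
theorem exists_coordsS {Z : Set V} {N : V →ₗ[ℂ] V}
    (hNW : ∀ w ∈ Submodule.span ℂ Z, N w ∈ Submodule.span ℂ Z)
    (hN2 : ∀ w ∈ Submodule.span ℂ Z, N (N w) = 0)
    (hrk : Module.finrank ℂ ((Submodule.span ℂ Z).map N) = 2) :
    ∃ k, Module.finrank ℂ (Submodule.span ℂ Z) = k + 4 ∧
      ∃ ι : V →L[ℂ] ES k, GoodCoordS Z ι ∧ NormalForm Z ι N := by
  set W := Submodule.span ℂ Z with hW
  set M := W.map N with hM
  let b := Module.finBasisOfFinrankEq ℂ M hrk
  obtain ⟨e0, he0, hb0⟩ := (b 0).2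
  obtain ⟨e1, he1, hb1⟩ := (b 1).2
  set K := W ⊓ LinearMap.ker N with hK
  have hMK : M ≤ K := by
    rintro _ ⟨w, hw, rfl⟩
    exact ⟨hNW w hw, hN2 w hw⟩
  obtain ⟨C, hC⟩ := M.exists_isCompl
  set K' := C ⊓ K with hK'
  have hsup : M ⊔ K' = K := by
    rw [hK', ← sup_inf_assoc_of_le C hMK, hC.sup_eq_top, top_inf_eq]
  have hdisj : ∀ u ∈ M, ∀ v ∈ K', u + v = 0 → u = 0 ∧ v = 0 := by
    intro u hu v hv huv
    have huC : u ∈ C := by
      have : u = -v := eq_neg_of_add_eq_zero_left huv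
      rw [this]
      exact C.neg_mem hv.1
    have hu0 : u = 0 := (Submodule.disjoint_def.1 hC.disjoint) u hu huC
    refine ⟨hu0, ?_⟩
    rw [hu0, zero_add] at huv
    exact huv
  let θ : (Fin (Module.finrank ℂ K') → ℂ) ≃ₗ[ℂ] K' :=
    LinearEquiv.ofFinrankEq _ _ (by simp)
  set k := Module.finrank ℂ K' with hk
  let Φ : ES k →ₗ[ℂ] V :=
    { toFun := fun e => e.1 • e0 + e.2.1 • e1 + e.2.2.1 • ((b 0 : M) : V)
        + e.2.2.2.1 • ((b 1 : M) : V) + (θ e.2.2.2.2 : V)
      map_add' := by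
        intro x y
        simp only [Prod.fst_add, Prod.snd_add, map_add, Submodule.coe_add, add_smul]
        abel
      map_smul' := by
        intro c x
        simp only [Prod.smul_fst, Prod.smul_snd, map_smul, Submodule.coe_smul, smul_eq_mul,
          mul_smul, RingHom.id_apply, smul_add] }
  have hΦ : ∀ e, Φ e = e.1 • e0 + e.2.1 • e1 + e.2.2.1 • ((b 0 : M) : V)
        + e.2.2.2.1 • ((b 1 : M) : V) + (θ e.2.2.2.2 : V) := fun e => rfl
  have hNb : ∀ u ∈ M, N u = 0 := fun u hu => (hMK hu).2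
  have hNθ : ∀ κ, N (θ κ : V) = 0 := fun κ => ((θ κ).2).2.2
  have hNΦ : ∀ e, N (Φ e) = e.1 • ((b 0 : M) : V) + e.2.1 • ((b 1 : M) : V) := by
    intro e
    rw [hΦ]
    simp only [map_add, map_smul, hNθ, hNb _ (b 0).2, hNb _ (b 1).2, hb0, hb1, smul_zero,
      add_zero]
  have hbli : ∀ s t : ℂ, s • ((b 0 : M) : V) + t • ((b 1 : M) : V) = 0 → s = 0 ∧ t = 0 := by
    intro s t h
    have hli := b.linearIndependent
    have h2 : s • b 0 + t • b 1 = 0 := Subtype.ext (by simpa using h)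
    have h3 := Fintype.linearIndependent_iff.1 hli ![s, t] (by
      rw [Fin.sum_univ_two]; simpa using h2)
    exact ⟨by simpa using h3 0, by simpa using h3 1⟩
  have hΦW : ∀ e, Φ e ∈ W := by
    intro e
    rw [hΦ]
    have hb0W : ((b 0 : M) : V) ∈ W := (hMK (b 0).2).1
    have hb1W : ((b 1 : M) : V) ∈ W := (hMK (b 1).2).1
    exact W.add_mem (W.add_mem (W.add_mem (W.add_mem (W.smul_mem _ he0) (W.smul_mem _ he1))
      (W.smul_mem _ hb0W)) (W.smul_mem _ hb1W)) ((θ e.2.2.2.2).2.2.1)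
  have hinj : ∀ e, Φ e = 0 → e = 0 := by
    intro e he
    have h1 := hNΦ e
    rw [he, map_zero] at h1
    obtain ⟨ha, hb⟩ := hbli _ _ h1.symm
    have h2 := hΦ e
    rw [he, ha, hb, zero_smul, zero_smul, zero_add, zero_add] at h2
    have h3 := hdisj (e.2.2.1 • ((b 0 : M) : V) + e.2.2.2.1 • ((b 1 : M) : V))
      (M.add_mem (M.smul_mem _ (b 0).2) (M.smul_mem _ (b 1).2)) (θ e.2.2.2.2 : V)
      (θ e.2.2.2.2).2 h2.symm
    obtain ⟨hc, hd⟩ := hbli _ _ h3.1
    have he5 : θ e.2.2.2.2 = 0 := Subtype.ext h3.2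
    have he6 : e.2.2.2.2 = 0 := by simpa using he5
    exact Prod.ext ha (Prod.ext hb (Prod.ext hc (Prod.ext hd he6)))
  have hsurj : ∀ w ∈ W, ∃ e, Φ e = w := by
    intro w hw
    have hNw : N w ∈ M := ⟨w, hw, rfl⟩
    have hrep : ∀ u : M, ∃ s t : ℂ, (u : V) = s • ((b 0 : M) : V) + t • ((b 1 : M) : V) := by
      intro u
      refine ⟨b.repr u 0, b.repr u 1, ?_⟩
      have h := b.sum_repr u
      rw [Fin.sum_univ_two] at h
      have := congrArg Subtype.val h
      simpa using this.symm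
    obtain ⟨s, t, hst⟩ := hrep ⟨N w, hNw⟩
    have hmem : w - s • e0 - t • e1 ∈ K := by
      refine ⟨W.sub_mem (W.sub_mem hw (W.smul_mem _ he0)) (W.smul_mem _ he1), ?_⟩
      show N (w - s • e0 - t • e1) = 0
      rw [map_sub, map_sub, map_smul, map_smul, hb0, hb1]
      simp only at hst
      rw [hst]
      abel
    rw [← hsup] at hmem
    obtain ⟨u, hu, v, hv, huv⟩ := Submodule.mem_sup.1 hmem
    obtain ⟨c, d, hcd⟩ := hrep ⟨u, hu⟩
    simp only at hcd
    refine ⟨(s, t, c, d, θ.symm ⟨v, hv⟩), ?_⟩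
    rw [hΦ]
    simp only [LinearEquiv.apply_symm_apply]
    have : w = s • e0 + t • e1 + (u + v) := by rw [huv]; abel
    rw [this, hcd]
    abel
  let Φ' : ES k →ₗ[ℂ] W := Φ.codRestrict W hΦW
  have hΦ'bij : Function.Bijective Φ' := by
    constructor
    · rw [← LinearMap.ker_eq_bot, LinearMap.ker_eq_bot']
      intro e he
      exact hinj e (congrArg Subtype.val he)
    · intro w
      obtain ⟨e, he⟩ := hsurj w w.2
      exact ⟨e, Subtype.ext he⟩
  let E := LinearEquiv.ofBijective Φ' hΦ'bij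
  refine ⟨k, ?_, ?_⟩
  · rw [← finrank_ES k]
    exact E.finrank_eq.symm
  obtain ⟨g, hg⟩ := LinearMap.exists_extend (E.symm : W →ₗ[ℂ] ES k)
  have hgΦ : ∀ e, g (Φ e) = e := by
    intro e
    have h1 : g ((E e : W) : V) = E.symm (E e) := by
      have := congrArg (fun f => f (E e)) hg
      simpa using this
    rw [E.symm_apply_apply] at h1
    exact h1
  refine ⟨LinearMap.toContinuousLinearMap g, ⟨?_, ?_⟩, ?_⟩
  · intro w hw h
    obtain ⟨e, rfl⟩ := hsurj w hw
    have h1 : g (Φ e) = 0 := h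
    rw [hgΦ] at h1
    rw [h1, map_zero]
  · intro e
    exact ⟨Φ e, hΦW e, hgΦ e⟩
  · intro w hw
    obtain ⟨e, rfl⟩ := hsurj w hw
    show g (N (Φ e)) = (0, 0, (g (Φ e)).1, (g (Φ e)).2.1, 0)
    rw [hgΦ]
    have h1 : N (Φ e) = Φ (0, 0, e.1, e.2.1, 0) := by
      rw [hNΦ, hΦ]
      simp
    rw [h1, hgΦ]

theorem finrank_fibreSpanS {m k : ℕ} {Z : Set V} {ι : V →L[ℂ] ES k} (hι : GoodCoordS Z ι)
    (y : TS m k) : Module.finrank ℂ (fibreSpan (coneOf Set.univ (AS m ι) Z) y)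
      = Module.finrank ℂ (Submodule.span ℂ Z) := by
  rw [fibreSpan_coneOf (Set.mem_univ y)]
  have hinj : Function.Injective ((AS m ι y : V →ₗ[ℂ] TS m k).comp
      (Submodule.span ℂ Z).subtype) := by
    rw [← LinearMap.ker_eq_bot, LinearMap.ker_eq_bot']
    intro w hw
    exact Subtype.ext (hι.inj w w.2 (FS_eq_zero (e := ι w) hw))
  rw [← LinearMap.finrank_range_of_inj hinj, LinearMap.range_comp, Submodule.range_subtype]

theorem occursEverywhere_of_square_zero {V : Type} [NormedAddCommGroup V] [NormedSpace ℂ V]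
    [FiniteDimensional ℂ V] (Z : Set V) (hZ : IsSmoothCone Z) (N : V →ₗ[ℂ] V)
    (hN : ∀ z ∈ Z, IsTangent Z z (N z)) (hN2 : ∀ z ∈ Z, N (N z) = 0)
    (hrk : Module.finrank ℂ ((Submodule.span ℂ Z).map N) = 2)
    (hdim : Module.finrank ℂ (Submodule.span ℂ Z) + 4 ≤ Module.finrank ℂ V) :
    OccursEverywhere Z := by
  have hNW : ∀ w ∈ Submodule.span ℂ Z, N w ∈ Submodule.span ℂ Z := by
    have hle : Submodule.span ℂ Z ≤ (Submodule.span ℂ Z).comap N := by
      rw [Submodule.span_le]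
      intro z hz
      exact isTangent_mem_span (hN z hz) hz
    exact fun w hw => hle hw
  have hN2W : ∀ w ∈ Submodule.span ℂ Z, N (N w) = 0 := by
    have hle : Submodule.span ℂ Z ≤ LinearMap.ker (N.comp N) := by
      rw [Submodule.span_le]
      intro z hz
      exact hN2 z hz
    exact fun w hw => hle hw
  obtain ⟨k, hk, ι, hι, hnf⟩ := exists_coordsS hNW hN2W hrk
  obtain ⟨m, hm⟩ : ∃ m, Module.finrank ℂ V = m + k + 8 :=
    ⟨Module.finrank ℂ V - (k + 8), by omega⟩
  have hker : ∀ (y : TS m k), ∀ w ∈ Submodule.span ℂ Z, AS m ι y w = 0 → w = 0 :=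
    fun y w hw h => hι.inj w hw (FS_eq_zero (e := ι w) h)
  refine ⟨TS m k, inferInstance, inferInstance, inferInstance, Set.univ,
    coneOf Set.univ (AS m ι) Z, ?_, isBracketGenerating_coneS hι, ?_,
    fun x _ => hasNonzeroF2_coneS hN hnf x, ?_⟩
  · refine isConeStructure_coneOf isOpen_univ isConnected_univ hZ
      (fun y _ => analyticAt_AS y) ?_ ?_
    · intro y _ z hz z' hz' h
      have h1 : AS m ι y (z - z') = 0 := by rw [map_sub, h, sub_self]
      exact sub_eq_zero.1 (hker y _ (Submodule.sub_mem _ (Submodule.subset_span hz)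
        (Submodule.subset_span hz')) h1)
    · intro y _ z hz w hw h
      exact hker y w (isTangent_mem_span hw hz) h
  · refine Set.eq_univ_of_forall fun y => ⟨Set.mem_univ _, Eventually.of_forall fun y' => ?_⟩
    rw [finrank_fibreSpanS hι, finrank_fibreSpanS hι]
  · intro y _
    obtain ⟨L, hL⟩ := exists_equiv_extend (Submodule.span ℂ Z)
      (AS m ι y : V →ₗ[ℂ] TS m k) (hker y) (hm.trans (finrank_TS m k).symm)
    refine ⟨L, ?_⟩
    rw [fibre_coneOf (Set.mem_univ _)]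
    exact Set.image_congr fun z hz => (hL z (Submodule.subset_span hz)).symm

end Pool.Agent.MP_d19687_ag
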